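import Pool.Agent.Helper33.TY.Layer

/-!
MP_8ee768_co, project TH-Y': byte words of functions on the subsets of the ten points `< 10`.

`bw g` has the value `g s` in the field `mk s`. `corr_bw`: one multiplication sums over all
supersets. `lay v i`: the value `v` on all sets of size `i` (kernel recursion `lay8`).
-/

set_option autoImplicit false

namespace Pool.Agent.Helper81.TY

open Finset
open Pool.Agent.Helper89.CV (OddCover ofMask)
open Pool.Agent.Helper97.CV Pool.Agent.Helper79.CV Pool.Agent.Helper33.CV
open Pool.Agent.Helper63.SIMD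
open Pool.Agent.Helper33.TY (corr cC corr_pk pk_append card_ofMask_add_eq ofMask_add_of_disjoint sum_map_le
  lay8 lay8_eq land_255)

/-- the ten points -/
def R10 : Finset (Fin 13) := univ.filter fun a => a.val < 10

theorem mem_R10 {a : Fin 13} : a ∈ R10 ↔ a.val < 10 := by
  unfold R10
  rw [mem_filter]
  exact ⟨fun h => h.2, fun h => ⟨mem_univ _, h⟩⟩

/-- the byte word of a function on sets -/
def bw (g : Finset (Fin 13) → ℕ) : ℕ := pk 8 1024 (fun m => g (ofMask m))

theorem mk_lt_R10 {s : Finset (Fin 13)} : mk s < 1024 ↔ s ⊆ R10 := by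
  rw [show (1024 : ℕ) = 2 ^ 10 by norm_num, mk_lt_iff]
  constructor
  · intro h a ha
    exact mem_R10.2 (h a ha)
  · intro h a ha
    exact mem_R10.1 (h ha)

theorem ofMask_subset_R10 {m : ℕ} (h : m < 1024) : ofMask m ⊆ R10 := by
  rw [← mk_lt_R10, mk_ofMask (by omega)]
  exact h

theorem bw_congr {g h : Finset (Fin 13) → ℕ} (hgh : ∀ s ⊆ R10, g s = h s) : bw g = bw h :=
  pk_congr fun _ hi => hgh _ (ofMask_subset_R10 hi)

theorem bw_add (g h : Finset (Fin 13) → ℕ) : bw g + bw h = bw fun s => g s + h s := pk_add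

theorem bw_mul (c : ℕ) (g : Finset (Fin 13) → ℕ) : c * bw g = bw fun s => c * g s := mul_pk c

theorem bw_sub {g h : Finset (Fin 13) → ℕ} (hgh : ∀ s, h s ≤ g s) :
    bw g - bw h = bw fun s => g s - h s := pk_sub fun _ _ => hgh _

theorem bw_land {g h : Finset (Fin 13) → ℕ} (hg : ∀ s, g s < 256) (hh : ∀ s, h s < 256) :
    bw g &&& bw h = bw fun s => g s &&& h s := pk_land (fun _ _ => hg _) (fun _ _ => hh _)

theorem bw_sub' {g h : Finset (Fin 13) → ℕ} (hgh : ∀ s ⊆ R10, h s ≤ g s) :
    bw g - bw h = bw fun s => g s - h s := pk_sub fun _ hi => hgh _ (ofMask_subset_R10 hi)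

theorem bw_land' {g h : Finset (Fin 13) → ℕ} (hg : ∀ s ⊆ R10, g s < 256)
    (hh : ∀ s ⊆ R10, h s < 256) :
    bw g &&& bw h = bw fun s => g s &&& h s :=
  pk_land (fun _ hi => hg _ (ofMask_subset_R10 hi)) (fun _ hi => hh _ (ofMask_subset_R10 hi))

theorem bw_lt {g : Finset (Fin 13) → ℕ} (hg : ∀ s ⊆ R10, g s < 256) : bw g < 2 ^ 8192 :=
  pk_lt fun _ hi => hg _ (ofMask_subset_R10 hi)

theorem fld_bw {g : Finset (Fin 13) → ℕ} (hg : ∀ s ⊆ R10, g s < 256) {m : ℕ} (hm : m < 1024) :
    fld 8 (bw g) m = g (ofMask m) :=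
  fld_pk (W := 8) (fun _ hi => hg _ (ofMask_subset_R10 hi)) hm

/-- the value `v` on all sets of size `i` -/
def lay (v i : ℕ) : ℕ := bw fun s => if s.card = i then v else 0

theorem lay8_lay (v i : ℕ) : lay8 v 10 i = lay v i := by
  rw [lay8_eq v (by norm_num)]
  rfl

/-- masking with a layer -/
theorem bw_land_lay {g : Finset (Fin 13) → ℕ} (hg : ∀ s ⊆ R10, g s < 256) (i : ℕ) :
    bw g &&& lay 255 i = bw fun s => if s.card = i then g s else 0 := by
  unfold lay
  rw [bw_land' hg (fun s _ => by split_ifs <;> norm_num)]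
  refine bw_congr fun s hs => ?_
  split_ifs
  · exact land_255 (hg s hs)
  · exact Nat.and_zero _

/-- halving all fields and masking with a layer -/
theorem bw_half {g : Finset (Fin 13) → ℕ} (hg : ∀ s ⊆ R10, g s < 256) (i : ℕ) :
    bw g >>> 1 &&& lay 127 i = bw fun s => if s.card = i then g s / 2 else 0 := by
  have h1 : bw g >>> 1 &&& lay 127 i = (bw g >>> 1 &&& lay 127 i) &&& lay 127 i := by
    rw [Nat.and_assoc, Nat.and_self]
  have hf : ∀ m, (fld 8 (bw g >>> 1 &&& lay 127 i) m) =
      if m < 1024 then (if (ofMask m).card = i then g (ofMask m) / 2 else 0) else 0 := by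
    intro m
    refine Nat.eq_of_testBit_eq fun j => ?_
    rw [Pool.Agent.Helper91.TY.testBit_fld, Nat.testBit_and, Nat.testBit_shiftRight]
    have hl : ∀ t, (lay 127 i).testBit t = (decide (t % 8 < 7) && (decide (t < 8192) &&
        decide ((ofMask (t / 8)).card = i))) := by
      intro t
      have h2 : (lay 127 i).testBit t = (fld 8 (lay 127 i) (t / 8)).testBit (t % 8) := by
        rw [Pool.Agent.Helper91.TY.testBit_fld, Nat.div_add_mod,
          decide_eq_true (Nat.mod_lt t (by norm_num)), Bool.true_and]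
      by_cases ht : t < 8192
      · rw [h2, show lay 127 i = bw _ from rfl, fld_bw (fun s _ => by split_ifs <;> norm_num)
          (by omega), decide_eq_true ht, Bool.true_and]
        by_cases hc : (ofMask (t / 8)).card = i
        · rw [if_pos hc, decide_eq_true hc, Bool.and_true,
            show (127 : ℕ) = 2 ^ 7 - 1 by norm_num, Nat.testBit_two_pow_sub_one]
        · rw [if_neg hc, decide_eq_false hc, Bool.and_false, Nat.zero_testBit]
      · rw [decide_eq_false ht, Bool.false_and, Bool.and_false]
        refine Nat.testBit_lt_two_pow ?_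
        refine lt_of_lt_of_le (bw_lt fun s _ => ?_) (Nat.pow_le_pow_right (by norm_num)
          (by omega : 8192 ≤ t))
        split_ifs <;> norm_num
    rw [hl]
    by_cases hj : j < 8
    · have e1 : (8 * m + j) % 8 = j := by omega
      have e2 : (8 * m + j) / 8 = m := by omega
      rw [e1, e2, decide_eq_true hj, Bool.true_and]
      by_cases hm : m < 1024
      · rw [decide_eq_true (show 8 * m + j < 8192 by omega), Bool.true_and, if_pos hm]
        by_cases hc : (ofMask m).card = i
        · rw [if_pos hc, decide_eq_true hc, Bool.and_true, Nat.testBit_div_two]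
          by_cases hj7 : j < 7
          · rw [decide_eq_true hj7, Bool.and_true]
            have h3 : (bw g).testBit (1 + (8 * m + j)) = (fld 8 (bw g) m).testBit (j + 1) := by
              rw [Pool.Agent.Helper91.TY.testBit_fld, decide_eq_true (show j + 1 < 8 by omega),
                Bool.true_and]
              congr 1
              omega
            rw [h3, fld_bw hg hm]
          · rw [decide_eq_false hj7, Bool.and_false]
            have h4 : g (ofMask m) < 2 ^ (j + 1) :=
              lt_of_lt_of_le (hg _ (ofMask_subset_R10 hm))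
                (show 2 ^ 8 ≤ 2 ^ (j + 1) from Nat.pow_le_pow_right (by norm_num) (by omega))
            rw [Nat.testBit_lt_two_pow h4]
        · rw [if_neg hc, decide_eq_false hc, Bool.and_false, Bool.and_false, Nat.zero_testBit]
      · rw [decide_eq_false (show ¬ 8 * m + j < 8192 by omega), Bool.false_and, Bool.and_false,
          Bool.and_false, if_neg hm, Nat.zero_testBit]
    · rw [decide_eq_false hj, Bool.false_and]
      split_ifs with h5 h6
      · rw [Nat.testBit_lt_two_pow]
        have h7 := hg _ (ofMask_subset_R10 h5)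
        exact lt_of_le_of_lt (Nat.div_le_self _ 2) (lt_of_lt_of_le h7
          (show 2 ^ 8 ≤ 2 ^ j from Nat.pow_le_pow_right (by norm_num) (by omega)))
      · rw [Nat.zero_testBit]
      · rw [Nat.zero_testBit]
  have hlt : bw g >>> 1 &&& lay 127 i < 2 ^ (8 * 1024) := by
    refine lt_of_le_of_lt Nat.and_le_right (bw_lt fun s _ => ?_)
    split_ifs <;> norm_num
  rw [← pk_fld hlt]
  show _ = pk 8 1024 (fun m => (fun s => if s.card = i then g s / 2 else 0) (ofMask m))
  refine pk_congr fun m hm => ?_
  rw [hf m, if_pos hm]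

/-! ## sums over supersets -/

theorem sum_L10 (j : ℕ) (f : Finset (Fin 13) → ℕ) :
    ((L 10 j).map fun c => f (ofMask c)).sum = ∑ t ∈ R10.powersetCard j, f t := by
  rw [← List.sum_toFinset _ (nodup_L 10 j)]
  refine sum_bij (fun c _ => ofMask c) ?_ ?_ (fun s hs => ⟨mk s, ?_⟩) (fun _ _ => rfl)
  · intro c hc
    rw [List.mem_toFinset, mem_L (by norm_num)] at hc
    rw [mem_powersetCard]
    exact ⟨ofMask_subset_R10 (by have := hc.1; norm_num at this; exact this), hc.2⟩
  · intro a ha b hb hab
    rw [List.mem_toFinset, mem_L (by norm_num)] at ha hb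
    have h1 := ha.1
    have h2 := hb.1
    norm_num at h1 h2
    exact ofMask_injOn (by omega) (by omega) hab
  · rw [mem_powersetCard] at hs
    refine ⟨?_, ofMask_mk s⟩
    rw [List.mem_toFinset, mem_L (by norm_num), ofMask_mk]
    refine ⟨?_, hs.2⟩
    have h1 := mk_lt_R10.2 hs.1
    norm_num
    exact h1

/-- THE CORRELATION on layers -/
theorem corr_bw {g : Finset (Fin 13) → ℕ} {i j b K : ℕ}
    (hg : ∀ s ⊆ R10, s.card ≠ i + j → g s = 0) (hb : ∀ s ⊆ R10, g s ≤ b)
    (hK : ∀ c ∈ L 10 j, c ≤ K) (hlen : Nat.choose 10 j * b < 256) :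
    corr K (cC K (L 10 j)) (bw g) &&& lay 255 i = bw fun s => if s.card = i then
      ∑ t ∈ (R10.powersetCard j).filter (Disjoint s), g (s ∪ t) else 0 := by
  have h1 : bw g = pk 8 1024 (fun m => if m < 1024 then g (ofMask m) else 0) :=
    pk_congr fun m hm => (if_pos hm).symm
  have hlen' : (L 10 j).length * b < 256 := by
    rw [length_L]
    exact hlen
  have h2 := corr_pk (N := 1024) (K := K) (b := b)
    (a := fun m => if m < 1024 then g (ofMask m) else 0)
    (fun i hi => if_neg (by omega)) (fun i => by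
      show (if i < 1024 then g (ofMask i) else 0) ≤ b
      split_ifs with hi
      · exact hb _ (ofMask_subset_R10 hi)
      · exact Nat.zero_le _) hK hlen'
  rw [h1, h2]
  have h3 : pk 8 1024 (fun m => ((L 10 j).map fun c =>
      if m + c < 1024 then g (ofMask (m + c)) else 0).sum) =
      bw (fun s => ((L 10 j).map fun c =>
        if mk s + c < 1024 then g (ofMask (mk s + c)) else 0).sum) := by
    refine pk_congr fun m hm => ?_
    have e : mk (ofMask m) = m := mk_ofMask (lt_trans hm (by norm_num))
    simp only [e]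
  have hlt : ∀ s : Finset (Fin 13), ((L 10 j).map fun c =>
      if mk s + c < 1024 then g (ofMask (mk s + c)) else 0).sum < 256 := by
    intro s
    refine lt_of_le_of_lt (sum_map_le _ _ (b := b) fun c _ => ?_) hlen'
    split_ifs with hi
    · exact hb _ (ofMask_subset_R10 hi)
    · exact Nat.zero_le _
  show pk 8 1024 (fun m => ((L 10 j).map fun c =>
      if m + c < 1024 then g (ofMask (m + c)) else 0).sum) &&& lay 255 i = _
  rw [h3, bw_land_lay (fun s _ => hlt s)]
  refine bw_congr fun s hs => ?_
  by_cases hc : s.card = i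
  · rw [if_pos hc, if_pos hc, sum_filter]
    have h4 := sum_L10 j (fun t => if Disjoint s t then g (s ∪ t) else 0)
    refine Eq.trans ?_ h4
    refine congrArg List.sum ?_
    refine List.map_congr_left fun c hcL => ?_
    have hcL' := (mem_L (n := 10) (by norm_num)).1 hcL
    have hc1 : c < 1024 := hcL'.1
    have hs1 := mk_lt_R10.2 hs
    have h13 : mk s + c < 2 ^ 13 := by
      rw [show (2 : ℕ) ^ 13 = 8192 by norm_num]
      omega
    have h5 := card_ofMask_add_eq h13
    rw [ofMask_mk, hc, hcL'.2] at h5
    by_cases hd : Disjoint s (ofMask c)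
    · rw [if_pos hd]
      have h6 := ofMask_add_of_disjoint h13 (by rw [ofMask_mk]; exact hd)
      rw [ofMask_mk] at h6
      have h7 : mk s + c < 1024 := by
        rw [← mk_ofMask h13, h6, mk_lt_R10]
        exact union_subset hs (ofMask_subset_R10 hc1)
      rw [if_pos h7, h6]
    · rw [if_neg hd]
      split_ifs with hi
      · exact hg _ (ofMask_subset_R10 hi) fun h8 => hd (h5.1 h8)
      · rfl
  · rw [if_neg hc, if_neg hc]

/-- the case of one point -/
theorem sum_disj_one {s : Finset (Fin 13)} (f : Finset (Fin 13) → ℕ) :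
    ∑ t ∈ (R10.powersetCard 1).filter (Disjoint s), f (s ∪ t) =
      ∑ v ∈ R10 \ s, f (insert v s) := by
  refine (sum_bij (fun v _ => {v}) ?_ ?_ ?_ ?_).symm
  · intro v hv
    rw [mem_sdiff] at hv
    rw [mem_filter, mem_powersetCard, singleton_subset_iff, card_singleton,
      disjoint_singleton_right]
    exact ⟨⟨hv.1, rfl⟩, hv.2⟩
  · intro a _ b _ hab
    exact singleton_injective hab
  · intro t ht
    rw [mem_filter, mem_powersetCard, card_eq_one] at ht
    obtain ⟨⟨h1, v, rfl⟩, h2⟩ := ht
    refine ⟨v, ?_, rfl⟩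
    rw [singleton_subset_iff] at h1
    rw [disjoint_singleton_right] at h2
    exact mem_sdiff.2 ⟨h1, h2⟩
  · intro v _
    congr 1
    ext a
    rw [mem_insert, mem_union, mem_singleton]
    exact or_comm

end Pool.Agent.Helper81.TY
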