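import Pool.Agent.Helper81.TY.Lane
import Pool.Agent.Helper54.TY.QBound

/-!
MP_8ee768_co, project TH-Y': soundness of the lane kill.
-/

set_option autoImplicit false

namespace Pool.Agent.Helper81.TY

open Finset
open Pool.Agent.Helper89.CV (OddCover ofMask)
open Pool.Agent.Helper97.CV Pool.Agent.Helper79.CV Pool.Agent.Helper33.CV
open Pool.Agent.Helper63.SIMD
open Pool.Agent.Helper33.TY (ind ind_le P1 PW qf corr cC)
open Pool.Agent.Helper25.TY (R11 mem_R11)

theorem R10_sub : R10 ⊆ R11 := by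
  intro a ha
  rw [mem_R10] at ha
  rw [mem_R11]
  omega

theorem insert10_sub {s : Finset (Fin 13)} (hs : s ⊆ R10) : insert 10 s ⊆ R11 := by
  refine insert_subset ?_ (hs.trans R10_sub)
  rw [mem_R11]
  decide

theorem card_insert10 {s : Finset (Fin 13)} (hs : s ⊆ R10) : (insert 10 s).card = s.card + 1 :=
  card_insert_of_notMem (notMem_R10 (by decide) hs)

theorem Fam10.ind_zero {k : ℕ} {F : Finset (Finset (Fin 13))} (h : Fam10 k F)
    {s : Finset (Fin 13)} (hs : s.card ≠ k) : ind F s = 0 := by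
  unfold ind
  exact if_neg fun h1 => hs (h s h1).2

section

variable {B : Finset (Finset (Fin 13))} {f : Finset (Fin 13) → ℕ}

theorem testBit_bw10 {g : Finset (Fin 13) → ℕ} (hg : ∀ s ⊆ R10, g s < 256) {t : ℕ}
    (ht : t < 8192) : (bw g).testBit t = (g (ofMask (t / 8))).testBit (t % 8) := by
  have h1 := fld_bw hg (m := t / 8) (by omega)
  rw [← h1, Pool.Agent.Helper91.TY.testBit_fld, decide_eq_true (Nat.mod_lt t (by norm_num)),
    Bool.true_and, Nat.div_add_mod]

theorem testBit_bw10_ge {g : Finset (Fin 13) → ℕ} (hg : ∀ s ⊆ R10, g s < 256) {t : ℕ}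
    (ht : 8192 ≤ t) : (bw g).testBit t = false :=
  Nat.testBit_lt_two_pow (lt_of_lt_of_le (bw_lt hg) (Nat.pow_le_pow_right (by norm_num) ht))

/-- exclusive or of the two links -/
def vx (B : Finset (Finset (Fin 13))) (s : Finset (Fin 13)) : ℕ :=
  if s.card = 4 then li B 12 s ^^^ li B 11 s else 0

/-- and of the two links -/
def vb (B : Finset (Finset (Fin 13))) (s : Finset (Fin 13)) : ℕ :=
  if s.card = 4 then li B 12 s &&& li B 11 s else 0

theorem xor_le_one {a b : ℕ} (ha : a ≤ 1) (hb : b ≤ 1) : a ^^^ b ≤ 1 := by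
  interval_cases a <;> interval_cases b <;> decide

theorem and_le_one {a b : ℕ} (ha : a ≤ 1) : a &&& b ≤ 1 := le_trans Nat.and_le_left ha

theorem vx_le (B : Finset (Finset (Fin 13))) (s : Finset (Fin 13)) : vx B s ≤ 1 := by
  unfold vx
  split_ifs
  · exact xor_le_one (li_le _ _ _) (li_le _ _ _)
  · omega

theorem vb_le (B : Finset (Finset (Fin 13))) (s : Finset (Fin 13)) : vb B s ≤ 1 := by
  unfold vb
  split_ifs
  · exact and_le_one (li_le _ _ _)
  · omega

theorem qf4 {s : Finset (Fin 13)} (h : s.card = 4) :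
    qf B f s = li B 12 s + 2 * li B 11 s := by
  unfold qf li
  rw [if_pos h]
  split_ifs <;> rfl

theorem two_bits {a b : ℕ} (ha : a ≤ 1) (hb : b ≤ 1) :
    (a + 2 * b) &&& 1 = a ∧ ((a + 2 * b) / 2 ^ 1) &&& 1 = b := by
  interval_cases a <;> interval_cases b <;> decide

theorem q0_lt (hB : OddCover B) (hf : ∀ s, f s ≤ 1) :
    ∀ s ⊆ R10, qf B f s < 256 := fun _ hs =>
  Pool.Agent.Helper54.TY.qf_lt hB hf (hs.trans R10_sub)

theorem qh_lt (hB : OddCover B) (hf : ∀ s, f s ≤ 1) :
    ∀ s ⊆ R10, qf B f (insert 10 s) < 256 := fun _ hs =>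
  Pool.Agent.Helper54.TY.qf_lt hB hf (insert10_sub hs)

theorem one_lt_shift : (1 : ℕ) < 2 ^ (8 - 1) := by norm_num

theorem zx_words (hB : OddCover B) (hf : ∀ s, f s ≤ 1) :
    Nat.land (bw (qf B f)) k1_4 = (bw fun s => if s.card = 4 then li B 12 s else 0) ∧
    Nat.land (Nat.shiftRight (bw (qf B f)) 1) k1_4 =
      bw fun s => if s.card = 4 then li B 11 s else 0 := by
  constructor
  · show bw (qf B f) &&& k1_4 = _
    rw [k1_4_eq, bw_land_lay' (q0_lt hB hf) (by norm_num)]
    refine bw_congr fun s _ => ?_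
    split_ifs with h
    · rw [qf4 h, (two_bits (li_le _ _ _) (li_le _ _ _)).1]
    · rfl
  · show bw (qf B f) >>> 1 &&& k1_4 = _
    rw [k1_4_eq, bw_shr_lay (q0_lt hB hf) (by norm_num) one_lt_shift]
    refine bw_congr fun s _ => ?_
    split_ifs with h
    · rw [qf4 h, (two_bits (li_le _ _ _) (li_le _ _ _)).2]
    · rfl

theorem zV_eq (hB : OddCover B) (hf : ∀ s, f s ≤ 1) : zV (bw (qf B f)) = bw (vx B) := by
  have h := zx_words hB hf
  unfold zV
  rw [h.1, h.2]
  show (bw fun s => if s.card = 4 then li B 12 s else 0) ^^^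
    (bw fun s => if s.card = 4 then li B 11 s else 0) = _
  rw [bw_xor]
  · refine bw_congr fun s _ => ?_
    unfold vx
    split_ifs
    · rfl
    · rfl
  · intro s _
    have := li_le B 12 s
    split_ifs <;> omega
  · intro s _
    have := li_le B 11 s
    split_ifs <;> omega

theorem zB_eq (hB : OddCover B) (hf : ∀ s, f s ≤ 1) : zB (bw (qf B f)) = bw (vb B) := by
  have h := zx_words hB hf
  unfold zB
  rw [h.1, h.2]
  show (bw fun s => if s.card = 4 then li B 12 s else 0) &&&
    (bw fun s => if s.card = 4 then li B 11 s else 0) = _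
  rw [bw_land']
  · refine bw_congr fun s _ => ?_
    unfold vb
    split_ifs
    · rfl
    · rfl
  · intro s _
    have := li_le B 12 s
    split_ifs <;> omega
  · intro s _
    have := li_le B 11 s
    split_ifs <;> omega

theorem li12_insert {s : Finset (Fin 13)} (hs : s ⊆ R10) :
    li B 12 (insert 10 s) = ind (zT12 B) s := by
  unfold li ind
  have h12 : (12 : Fin 13) ∉ insert 10 s := by
    rw [mem_insert, not_or]
    exact ⟨by decide, notMem_R10 (by decide) hs⟩
  refine if_congr ?_ rfl rfl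
  rw [mem_link, mem_zT12 hs, insert_comm]
  exact ⟨fun h => h.2, fun h => ⟨h12, h⟩⟩

theorem li11_insert {s : Finset (Fin 13)} (hs : s ⊆ R10) :
    li B 11 (insert 10 s) = ind (zT11 B) s := by
  unfold li ind
  have h11 : (11 : Fin 13) ∉ insert 10 s := by
    rw [mem_insert, not_or]
    exact ⟨by decide, notMem_R10 (by decide) hs⟩
  refine if_congr ?_ rfl rfl
  rw [mem_link, mem_zT11 hs, insert_comm]
  exact ⟨fun h => h.2, fun h => ⟨h11, h⟩⟩

/-- the word of the triples -/
def tt (B : Finset (Finset (Fin 13))) (s : Finset (Fin 13)) : ℕ :=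
  ind (zT12 B) s + ind (zT11 B) s

theorem zTT_eq (hB : OddCover B) (hf : ∀ s, f s ≤ 1) :
    zTT (bw fun s => qf B f (insert 10 s)) = bw (tt B) := by
  have hT12 := fam_zT12 hB
  have hT11 := fam_zT11 hB
  unfold zTT
  have e1 : Nat.land (bw fun s => qf B f (insert 10 s)) k1_3 = bw (ind (zT12 B)) := by
    show (bw fun s => qf B f (insert 10 s)) &&& k1_3 = _
    rw [k1_3_eq, bw_land_lay' (qh_lt hB hf) (by norm_num)]
    refine bw_congr fun s hs => ?_
    split_ifs with h
    · rw [qf4 (by rw [card_insert10 hs, h]), (two_bits (li_le _ _ _) (li_le _ _ _)).1,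
        li12_insert hs]
    · rw [hT12.ind_zero h]
  have e2 : Nat.land (Nat.shiftRight (bw fun s => qf B f (insert 10 s)) 1) k1_3 =
      bw (ind (zT11 B)) := by
    show (bw fun s => qf B f (insert 10 s)) >>> 1 &&& k1_3 = _
    rw [k1_3_eq, bw_shr_lay (qh_lt hB hf) (by norm_num) one_lt_shift]
    refine bw_congr fun s hs => ?_
    split_ifs with h
    · rw [qf4 (by rw [card_insert10 hs, h]), (two_bits (li_le _ _ _) (li_le _ _ _)).2,
        li11_insert hs]
    · rw [hT11.ind_zero h]
  rw [e1, e2]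
  exact bw_add _ _

theorem tt_le (B : Finset (Finset (Fin 13))) (s : Finset (Fin 13)) : tt B s ≤ 2 := by
  unfold tt
  have h1 := ind_le (zT12 B) s
  have h2 := ind_le (zT11 B) s
  omega

theorem tt_zero (hB : OddCover B) {s : Finset (Fin 13)} (h : s.card ≠ 3) : tt B s = 0 := by
  unfold tt
  rw [(fam_zT12 hB).ind_zero h, (fam_zT11 hB).ind_zero h]

theorem sum_tt {i j : ℕ} (hij : i + j = 3) (hB : OddCover B) {s : Finset (Fin 13)}
    (hi : s.card = i) : ∑ t ∈ (R10.powersetCard j).filter (Disjoint s), tt B (s ∪ t) =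
      cnt (zT11 B) s + cnt (zT12 B) s := by
  unfold tt
  rw [sum_add_distrib, sup_count10 (by rw [hij]; exact fam_zT12 hB) hi,
    sup_count10 (by rw [hij]; exact fam_zT11 hB) hi, Nat.add_comm]

/-- known part of the pair excesses, plus 4 -/
def pc (B : Finset (Finset (Fin 13))) (s : Finset (Fin 13)) : ℕ :=
  if s.card = 2 then P1 B s + (∑ t ∈ (R10.powersetCard 2).filter (Disjoint s), vb B (s ∪ t)) +
    (cnt (zT11 B) s + cnt (zT12 B) s) / 2 else 0

theorem qf2 {s : Finset (Fin 13)} (h : s.card = 2) : qf B f s = P1 B s := by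
  unfold qf
  rw [if_neg (by omega), if_neg (by omega), if_pos h]

theorem qf3 {s : Finset (Fin 13)} (h : s.card = 3) :
    qf B f s = if s ∈ link (link B 12) 11 then 1 else 0 := by
  unfold qf
  rw [if_neg (by omega), if_pos h]

theorem qf1 {u : Fin 13} : qf B f {u} = mm B 12 u + mm B 11 u + 64 * f {u} := by
  unfold qf
  rw [card_singleton, if_neg (by omega), if_neg (by omega), if_neg (by omega), if_pos rfl,
    sum_singleton]

theorem zP_eq (hB : OddCover B) (hf : ∀ s, f s ≤ 1) :
    zP (bw (qf B f)) (bw fun s => qf B f (insert 10 s)) = bw (pc B) := by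
  unfold zP
  rw [zB_eq hB hf, zTT_eq hB hf, cor_eq, cor_eq, kC2_eq, kC1_eq]
  have e1 : Nat.land (bw (qf B f)) k255_2 = bw fun s => if s.card = 2 then P1 B s else 0 := by
    show bw (qf B f) &&& k255_2 = _
    rw [k255_2_eq, bw_land_lay (q0_lt hB hf)]
    refine bw_congr fun s _ => ?_
    split_ifs with h
    · exact qf2 h
    · rfl
  have e2 : Nat.land (corr 896 (cC 896 (L 10 2)) (bw (vb B))) k255_2 =
      bw fun s => if s.card = 2 then
        ∑ t ∈ (R10.powersetCard 2).filter (Disjoint s), vb B (s ∪ t) else 0 := by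
    show corr 896 (cC 896 (L 10 2)) (bw (vb B)) &&& k255_2 = _
    rw [k255_2_eq, corr_bw (g := vb B) (i := 2) (j := 2) (b := 1) (fun s _ h => if_neg h)
      (fun s _ => vb_le B s) (by decide +kernel) (by decide)]
  have e3 : Nat.land (Nat.shiftRight (Nat.land (corr 896 (cC 896 (L 10 1)) (bw (tt B))) k255_2) 1)
      k127_2 = bw fun s => if s.card = 2 then
        (cnt (zT11 B) s + cnt (zT12 B) s) / 2 else 0 := by
    show (corr 896 (cC 896 (L 10 1)) (bw (tt B)) &&& k255_2) >>> 1 &&& k127_2 = _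
    rw [k255_2_eq, k127_2_eq, corr_bw (i := 2) (j := 1) (b := 2)
      (fun s _ h => tt_zero hB h) (fun s _ => tt_le B s) (by decide +kernel) (by decide),
      bw_half]
    · refine bw_congr fun s _ => ?_
      split_ifs with h
      · rw [sum_tt (by norm_num) hB h]
      · rfl
    · intro s _
      split_ifs with h
      · have := sum_disj_le (j := 1) (s := s) (f := fun t => tt B (s ∪ t)) (b := 2)
          (fun t => tt_le B _)
        rw [show Nat.choose 10 1 = 10 by decide] at this
        omega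
      · norm_num
  rw [e1, e2, e3, Nat.add_eq, Nat.add_eq, bw_add, bw_add]
  refine bw_congr fun s _ => ?_
  unfold pc
  split_ifs
  · rfl
  · rfl

/-- sum of the pair field -/
def fs (B : Finset (Finset (Fin 13))) (s : Finset (Fin 13)) : ℕ :=
  if s.card = 2 then cnt (zR B) s +
    ∑ t ∈ (R10.powersetCard 2).filter (Disjoint s), (ind (zR B) (s ∪ t) &&& vx B (s ∪ t)) else 0

theorem lf_eq (hB : OddCover B) : lf (bw (vx B)) (bw (ind (zR B))) = bw (fs B) := by
  have hR := fam_zR hB
  unfold lf
  rw [cor_eq, kC2_eq]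
  have e1 : Nat.add (bw (ind (zR B))) (Nat.land (bw (ind (zR B))) (bw (vx B))) =
      bw fun s => ind (zR B) s + (ind (zR B) s &&& vx B s) := by
    show bw (ind (zR B)) + (bw (ind (zR B)) &&& bw (vx B)) = _
    rw [bw_land' (fun s _ => by have := ind_le (zR B) s; omega)
      (fun s _ => by have := vx_le B s; omega), bw_add]
  rw [e1]
  show corr 896 (cC 896 (L 10 2)) _ &&& k255_2 = _
  rw [k255_2_eq, corr_bw (i := 2) (j := 2) (b := 2) (fun s _ h => by
    rw [hR.ind_zero h, Nat.zero_and]) (fun s _ => by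
    have h1 := ind_le (zR B) s
    have h2 := and_le_one (b := vx B s) h1
    omega) (by decide +kernel) (by decide)]
  refine bw_congr fun s _ => ?_
  unfold fs
  split_ifs with h
  · rw [sum_add_distrib, sup_count10 hR h]
  · rfl

/-- the pair bound in terms of the fields -/
theorem fs_pc (hB : OddCover B) {s : Finset (Fin 13)} (hs : s ⊆ R10) (h2 : s.card = 2) :
    fs B s + pc B s ≤ Lam B s + 4 := by
  have h := pair_bound hB hs h2
  have e : ∑ t ∈ (R10.powersetCard 2).filter (Disjoint s), mj B (s ∪ t) =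
      ∑ t ∈ (R10.powersetCard 2).filter (Disjoint s), vb B (s ∪ t) +
      ∑ t ∈ (R10.powersetCard 2).filter (Disjoint s), (ind (zR B) (s ∪ t) &&& vx B (s ∪ t)) := by
    rw [← sum_add_distrib]
    refine sum_congr rfl fun t ht => ?_
    rw [mem_filter, mem_powersetCard] at ht
    have hc : (s ∪ t).card = 4 := by
      rw [card_union_of_disjoint ht.2, h2, ht.1.2]
    unfold mj vb vx
    rw [if_pos hc, if_pos hc]
  rw [e] at h
  unfold fs pc
  rw [if_pos h2, if_pos h2]
  omega

theorem Lam_mono_sub (B : Finset (Finset (Fin 13))) {s t : Finset (Fin 13)} (h : s ⊆ t) :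
    Lam B t ≤ Lam B s := by
  unfold Lam LamW
  refine sum_le_sum_of_subset fun q hq => ?_
  rw [mem_filter] at hq ⊢
  exact ⟨hq.1, h.trans hq.2⟩

theorem Lam_le35 (hB : OddCover B) (h157 : B.card ≤ 157) (s : Finset (Fin 13)) : Lam B s ≤ 35 :=
  (Lam_mono_sub B (empty_subset s)).trans (Lam_empty_le hB h157)

theorem MM_le31 (hB : OddCover B) (h157 : B.card ≤ 157) (u : Fin 13) : MM B u ≤ 31 := by
  have h1 := Lam_le35 hB h157 {u}
  have h2 := Lam_point hB u
  omega

/-- the thresholds -/
def tf (B : Finset (Finset (Fin 13))) (s : Finset (Fin 13)) : ℕ :=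
  if s.card = 2 then ((if 6 ≤ fs B s + pc B s then 1 else 0) +
    (if 9 ≤ fs B s + pc B s then 1 else 0)) + (if 12 ≤ fs B s + pc B s then 1 else 0) else 0

theorem thr_bit {x k : ℕ} (hx : x ≤ 39) (_hk : k = 6 ∨ k = 9 ∨ k = 12) :
    ((x + (128 - k)) / 2 ^ 7) &&& 1 = if k ≤ x then 1 else 0 := by
  rw [Nat.and_one_is_mod]
  split_ifs with h
  · omega
  · omega

theorem thr_word (hB : OddCover B) (h157 : B.card ≤ 157) {k : ℕ} (hk : k = 6 ∨ k = 9 ∨ k = 12) :
    (bw (fs B) + (bw (pc B) + lay (128 - k) 2)) >>> 7 &&& lay 1 2 =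
      bw fun s => if s.card = 2 then (if k ≤ fs B s + pc B s then 1 else 0) else 0 := by
  have hle : ∀ s ⊆ R10, fs B s + pc B s ≤ 39 := by
    intro s hs
    by_cases h2 : s.card = 2
    · have h3 := fs_pc hB hs h2
      have h4 := Lam_le35 hB h157 s
      omega
    · unfold fs pc
      rw [if_neg h2, if_neg h2]
      omega
  rw [lay_apply (128 - k), bw_add, bw_add, bw_shr_lay (fun s hs => by
    have h3 := hle s hs
    split_ifs <;> omega) (by norm_num) (by norm_num)]
  refine bw_congr fun s hs => ?_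
  split_ifs with h2
  · have h3 := hle s hs
    have h4 := thr_bit h3 hk
    rw [if_pos (by assumption)] at h4
    rw [← h4]
    congr 2
    omega
  · have h3 := hle s hs
    have h4 := thr_bit h3 hk
    rw [if_neg (by assumption)] at h4
    rw [← h4]
    congr 2
    omega
  · rfl

theorem lt_eq (hB : OddCover B) (h157 : B.card ≤ 157) :
    lt (bw (fs B)) (Nat.add (bw (pc B)) k122_2) (Nat.add (bw (pc B)) k119_2)
      (Nat.add (bw (pc B)) k116_2) = bw (tf B) := by
  unfold lt
  show ((bw (fs B) + (bw (pc B) + k122_2)) >>> 7 &&& k1_2) +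
    ((bw (fs B) + (bw (pc B) + k119_2)) >>> 7 &&& k1_2) +
    ((bw (fs B) + (bw (pc B) + k116_2)) >>> 7 &&& k1_2) = _
  have h6 := thr_word hB h157 (k := 6) (by omega)
  have h9 := thr_word hB h157 (k := 9) (by omega)
  have h12 := thr_word hB h157 (k := 12) (by omega)
  rw [k122_2_eq, k119_2_eq, k116_2_eq, k1_2_eq, h6, h9, h12, bw_add, bw_add]
  refine bw_congr fun s _ => ?_
  unfold tf
  split_ifs
  all_goals rfl

theorem tf_le_mm (hB : OddCover B) {u v : Fin 13} (hu : u ∈ R10) (hv : v ∈ R10) (huv : u ≠ v) :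
    tf B {u, v} ≤ mm B u v := by
  have hs : ({u, v} : Finset (Fin 13)) ⊆ R10 :=
    insert_subset hu (singleton_subset_iff.2 hv)
  have h1 := fs_pc hB hs (card_pair huv)
  have h2 := Lam_pair hB huv
  unfold tf
  rw [if_pos (card_pair huv)]
  split_ifs <;> omega

theorem tf_le (B : Finset (Finset (Fin 13))) (s : Finset (Fin 13)) : tf B s ≤ 3 := by
  unfold tf
  split_ifs <;> omega

/-- the known total of a row -/
def tot (B : Finset (Finset (Fin 13))) (u : Fin 13) : ℕ :=
  ∑ v ∈ R10.erase u, tf B {u, v} + (mm B 12 u + mm B 11 u + mm B 10 u)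

theorem tot_le (hB : OddCover B) {u : Fin 13} (hu : u ∈ R10) : tot B u ≤ MM B u := by
  refine row_bound hu fun v hv hvu => ?_
  exact tf_le_mm hB hu hv fun h => hvu h.symm

theorem sum_single {u : Fin 13} (g : Finset (Fin 13) → ℕ) :
    ∑ t ∈ (R10.powersetCard 1).filter (Disjoint {u}), g ({u} ∪ t) =
      ∑ v ∈ R10.erase u, g {u, v} := by
  refine (sum_bij (fun v _ => {v}) ?_ ?_ ?_ ?_).symm
  · intro v hv
    rw [mem_erase] at hv
    rw [mem_filter, mem_powersetCard, singleton_subset_iff, card_singleton,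
      disjoint_singleton]
    exact ⟨⟨hv.2, rfl⟩, fun h => hv.1 h.symm⟩
  · intro a _ b _ hab
    exact singleton_injective hab
  · intro t ht
    rw [mem_filter, mem_powersetCard, card_eq_one] at ht
    obtain ⟨⟨h1, v, rfl⟩, h2⟩ := ht
    refine ⟨v, ?_, rfl⟩
    rw [singleton_subset_iff] at h1
    rw [disjoint_singleton] at h2
    exact mem_erase.2 ⟨fun h => h2 h.symm, h1⟩
  · intro v _
    congr 1

/-- the word of the rows -/
def ra (B : Finset (Finset (Fin 13))) (s : Finset (Fin 13)) : ℕ :=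
  if s.card = 1 then 2 * (∑ u ∈ s, (mm B 12 u + mm B 11 u)) +
    (cnt (zT11 B) s + cnt (zT12 B) s) + (cnt (zF B) s + 111) else 0

theorem mm_lt64 (hB : OddCover B) (h157 : B.card ≤ 157) {u : Fin 13} (hu : u ∈ R10) :
    mm B 12 u + mm B 11 u < 64 := by
  have h1 := tot_le hB hu
  have h2 := MM_le31 hB h157 u
  unfold tot at h1
  omega

theorem land63 {x y : ℕ} (hx : x < 64) : (x + 64 * y) &&& 63 = x := by
  rw [show (63 : ℕ) = 2 ^ 6 - 1 by norm_num, Nat.and_two_pow_sub_one_eq_mod]
  omega

/-- degrees in the known blocks through 10 and 11 or 12 -/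
def ct (B : Finset (Finset (Fin 13))) (s : Finset (Fin 13)) : ℕ :=
  if s.card = 1 then (cnt (zT11 B) s + cnt (zT12 B) s) + cnt (zF B) s else 0

theorem zC_eq (hB : OddCover B) (hf : ∀ s, f s ≤ 1) :
    zC (bw fun s => qf B f (insert 10 s)) = bw (ct B) := by
  unfold zC
  rw [zTT_eq hB hf, cor_eq, cor_eq, kC2_eq, kC1_eq]
  have e2 : Nat.land (corr 896 (cC 896 (L 10 2)) (bw (tt B))) k255_1 =
      bw fun s => if s.card = 1 then cnt (zT11 B) s + cnt (zT12 B) s else 0 := by
    show corr 896 (cC 896 (L 10 2)) (bw (tt B)) &&& k255_1 = _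
    rw [k255_1_eq, corr_bw (i := 1) (j := 2) (b := 2)
      (fun s _ h => tt_zero hB h) (fun s _ => tt_le B s) (by decide +kernel) (by decide)]
    refine bw_congr fun s _ => ?_
    split_ifs with h
    · rw [sum_tt (by norm_num) hB h]
    · rfl
  have e3 : Nat.land (corr 896 (cC 896 (L 10 1)) (Nat.land (bw fun s => qf B f (insert 10 s)) k1_2))
      k255_1 = bw fun s => if s.card = 1 then cnt (zF B) s else 0 := by
    have e4 : Nat.land (bw fun s => qf B f (insert 10 s)) k1_2 = bw (ind (zF B)) := by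
      show (bw fun s => qf B f (insert 10 s)) &&& k1_2 = _
      rw [k1_2_eq, bw_land_lay' (qh_lt hB hf) (by norm_num)]
      refine bw_congr fun s hs => ?_
      split_ifs with h
      · rw [qf3 (by rw [card_insert10 hs, h])]
        unfold ind
        have h5 : insert 10 s ∈ link (link B 12) 11 ↔ s ∈ zF B := by
          rw [mem_link, mem_link, mem_zF hs, mem_insert, not_or, mem_insert, not_or, mem_insert,
            not_or]
          have h11 : (11 : Fin 13) ∉ s := notMem_R10 (by decide) hs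
          have h12 : (12 : Fin 13) ∉ s := notMem_R10 (by decide) hs
          have e5 : (insert 12 (insert 11 (insert 10 s)) : Finset (Fin 13)) =
              insert 10 (insert 12 (insert 11 s)) := by
            ext a
            simp only [mem_insert]
            tauto
          rw [e5]
          have h : (11 : Fin 13) ≠ 10 := by decide
          have h' : (12 : Fin 13) ≠ 11 := by decide
          have h'' : (12 : Fin 13) ≠ 10 := by decide
          tauto
        by_cases h6 : s ∈ zF B
        · rw [if_pos h6, if_pos (h5.2 h6)]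
          decide
        · rw [if_neg h6, if_neg fun h7 => h6 (h5.1 h7)]
          decide
      · rw [(fam_zF hB).ind_zero h]
    rw [e4]
    show corr 896 (cC 896 (L 10 1)) (bw (ind (zF B))) &&& k255_1 = _
    rw [k255_1_eq, corr_bw (i := 1) (j := 1) (b := 1)
      (fun s _ h => (fam_zF hB).ind_zero h) (fun s _ => ind_le _ s) (by decide +kernel)
      (by decide)]
    refine bw_congr fun s _ => ?_
    split_ifs with h
    · exact sup_count10 (i := 1) (j := 1) (fam_zF hB) h
    · rfl
  rw [e2, e3, Nat.add_eq, bw_add]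
  refine bw_congr fun s _ => ?_
  unfold ct
  split_ifs
  · rfl
  · rfl

theorem ra_ct (B : Finset (Finset (Fin 13))) {s : Finset (Fin 13)} (h : s.card = 1) :
    ra B s = 2 * (∑ u ∈ s, (mm B 12 u + mm B 11 u)) + ct B s + 111 := by
  unfold ra ct
  rw [if_pos h, if_pos h]
  omega

theorem zA_eq (hB : OddCover B) (h157 : B.card ≤ 157) (hf : ∀ s, f s ≤ 1) :
    zA (bw (qf B f)) (bw (ct B)) = bw (ra B) := by
  unfold zA
  have e1 : Nat.mul 2 (Nat.land (bw (qf B f)) k63_1) =
      bw fun s => if s.card = 1 then 2 * (∑ u ∈ s, (mm B 12 u + mm B 11 u)) else 0 := by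
    show 2 * (bw (qf B f) &&& k63_1) = _
    rw [k63_1_eq, bw_land_lay' (q0_lt hB hf) (by norm_num), bw_mul]
    refine bw_congr fun s hs => ?_
    split_ifs with h
    · obtain ⟨u, rfl⟩ := card_eq_one.1 h
      rw [qf1, land63 (mm_lt64 hB h157 (singleton_subset_iff.1 hs)), sum_singleton]
    · rfl
  rw [e1, k111_1_eq, lay_apply 111, Nat.add_eq, Nat.add_eq, bw_add, bw_add]
  refine bw_congr fun s _ => ?_
  by_cases h : s.card = 1
  · rw [if_pos h, if_pos h, ra_ct B h]
  · rw [if_neg h, if_neg h]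
    unfold ct ra
    rw [if_neg h, if_neg h]

/-- the word of the degrees of the lane -/
def nf (B : Finset (Finset (Fin 13))) (s : Finset (Fin 13)) : ℕ :=
  if s.card = 1 then cnt (zR B) s else 0

theorem lN_eq (hB : OddCover B) : lN (bw (ind (zR B))) = bw (nf B) := by
  unfold lN
  rw [cor_eq, kC3_eq]
  show corr 896 (cC 896 (L 10 3)) _ &&& k255_1 = _
  rw [k255_1_eq, corr_bw (i := 1) (j := 3) (b := 1) (fun s _ h => (fam_zR hB).ind_zero h)
    (fun s _ => ind_le _ s) (by decide +kernel) (by decide)]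
  refine bw_congr fun s _ => ?_
  unfold nf
  split_ifs with h
  · exact sup_count10 (i := 1) (j := 3) (fam_zR hB) h
  · rfl

/-- degree and offset -/
theorem nf_ct (hB : OddCover B) {u : Fin 13} (hu : u ∈ R10) :
    nf B {u} + ct B {u} = 2 * mm B 10 u + 19 := by
  have h1 := mm10_eq hB hu
  unfold nf ct
  rw [card_singleton, if_pos rfl, if_pos rfl]
  omega

/-- the even part of the row -/
def xf (B : Finset (Finset (Fin 13))) (s : Finset (Fin 13)) : ℕ :=
  if s.card = 1 then ∑ u ∈ s, 2 * ((tot B u + 1) / 2) else 0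

theorem even_bits : ∀ x < 32, ((2 * x + 130) / 2 ^ 1) &&& 62 = 2 * ((x + 1) / 2) := by decide

theorem tot_lt (hB : OddCover B) (h157 : B.card ≤ 157) {u : Fin 13} (hu : u ∈ R10) :
    tot B u < 32 := by
  have h1 := tot_le hB hu
  have h2 := MM_le31 hB h157 u
  omega

theorem lX_eq (hB : OddCover B) (h157 : B.card ≤ 157) :
    lX (bw (tf B)) (bw (nf B)) (bw (ra B)) = bw (xf B) := by
  unfold lX
  have e1 : Nat.land (cor kC1d (bw (tf B))) k255_1 = bw fun s => if s.card = 1 then
      ∑ t ∈ (R10.powersetCard 1).filter (Disjoint s), 2 * tf B (s ∪ t) else 0 := by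
    have e2 : cor kC1d (bw (tf B)) = corr 896 (cC 896 (L 10 1)) (bw fun s => 2 * tf B s) := by
      show (bw (tf B) * kC1d) >>> 7168 = ((bw fun s => 2 * tf B s) * cC 896 (L 10 1)) >>> (8 * 896)
      rw [kC1d_eq, ← Nat.mul_assoc, Nat.mul_comm (bw (tf B)) 2, bw_mul]
    rw [e2]
    show corr 896 (cC 896 (L 10 1)) _ &&& k255_1 = _
    rw [k255_1_eq, corr_bw (i := 1) (j := 1) (b := 6) (fun s _ h => by
      show 2 * tf B s = 0
      unfold tf
      rw [if_neg h]) (fun s _ => by
      have := tf_le B s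
      show 2 * tf B s ≤ 6
      omega) (by decide +kernel) (by decide)]
  rw [e1, Nat.add_eq, Nat.add_eq, bw_add, bw_add, k62_1_eq]
  have hv : ∀ u ∈ R10, ∑ t ∈ (R10.powersetCard 1).filter (Disjoint {u}), 2 * tf B ({u} ∪ t) +
      (nf B {u} + ra B {u}) = 2 * tot B u + 130 := by
    intro u hu
    rw [sum_single (fun s => 2 * tf B s), ← mul_sum]
    have h1 := nf_ct hB hu
    rw [ra_ct B (card_singleton u), sum_singleton]
    unfold tot
    omega
  show (bw fun s => _) >>> 1 &&& lay 62 1 = _
  rw [bw_shr_lay]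
  · refine bw_congr fun s hs => ?_
    unfold xf
    by_cases h : s.card = 1
    · rw [if_pos h, if_pos h, if_pos h]
      obtain ⟨u, rfl⟩ := card_eq_one.1 h
      have hu := singleton_subset_iff.1 hs
      rw [hv u hu, even_bits _ (tot_lt hB h157 hu), sum_singleton]
    · rw [if_neg h, if_neg h]
  · intro s hs
    by_cases h : s.card = 1
    · rw [if_pos h]
      obtain ⟨u, rfl⟩ := card_eq_one.1 h
      have hu := singleton_subset_iff.1 hs
      have h1 := hv u hu
      have h2 := tot_lt hB h157 hu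
      omega
    · rw [if_neg h]
      unfold ra nf
      rw [if_neg h, if_neg h]
      norm_num
  · norm_num
  · norm_num

/-- flags: known heavy points, and (with `nb`) the points with an edge to 10 -/
def ff (B : Finset (Finset (Fin 13))) (f : Finset (Fin 13) → ℕ) (nb : Bool)
    (s : Finset (Fin 13)) : ℕ :=
  if s.card = 1 then (if nb = true ∧ 1 ≤ ∑ u ∈ s, mm B 10 u then 1 else 0) ||| f s else 0

theorem or_le_one {a b : ℕ} (ha : a ≤ 1) (hb : b ≤ 1) : a ||| b ≤ 1 := by
  interval_cases a <;> interval_cases b <;> decide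

theorem ff_le (hf : ∀ s, f s ≤ 1) (nb : Bool) (s : Finset (Fin 13)) : ff B f nb s ≤ 1 := by
  unfold ff
  split_ifs
  · exact or_le_one (le_refl 1) (hf s)
  · exact or_le_one (Nat.zero_le 1) (hf s)
  · omega

theorem zG_eq (hB : OddCover B) (h157 : B.card ≤ 157) (hf : ∀ s, f s ≤ 1) :
    zG (bw (qf B f)) = bw fun s => if s.card = 1 then f s else 0 := by
  unfold zG
  show bw (qf B f) >>> 6 &&& k1_1 = _
  rw [k1_1_eq, bw_shr_lay (q0_lt hB hf) (by norm_num) (by norm_num)]
  refine bw_congr fun s hs => ?_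
  split_ifs with h
  · obtain ⟨u, rfl⟩ := card_eq_one.1 h
    rw [qf1, Nat.and_one_is_mod]
    have h1 := mm_lt64 hB h157 (singleton_subset_iff.1 hs)
    have h2 := hf {u}
    omega
  · rfl

theorem bw_or {g h : Finset (Fin 13) → ℕ} (hg : ∀ s, g s ≤ 1) (hh : ∀ s, h s ≤ 1) :
    bw g ||| bw h = bw fun s => g s ||| h s := by
  have hg' : ∀ s ⊆ R10, g s < 256 := fun s _ => by have := hg s; omega
  have hh' : ∀ s ⊆ R10, h s < 256 := fun s _ => by have := hh s; omega
  have ho : ∀ s ⊆ R10, g s ||| h s < 256 := fun s _ => by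
    have := or_le_one (hg s) (hh s)
    omega
  refine Nat.eq_of_testBit_eq fun t => ?_
  rw [Nat.testBit_or]
  by_cases ht : t < 8192
  · rw [testBit_bw10 hg' ht, testBit_bw10 hh' ht, testBit_bw10 ho ht, Nat.testBit_or]
  · rw [testBit_bw10_ge hg' (by omega), testBit_bw10_ge hh' (by omega),
      testBit_bw10_ge ho (by omega)]
    rfl

theorem nb_bits : ∀ x < 32, ((2 * x + 126) / 2 ^ 7) &&& 1 = if 1 ≤ x then 1 else 0 := by decide

theorem lF_eq (hB : OddCover B) (h157 : B.card ≤ 157) (hf : ∀ s, f s ≤ 1) (nb : Bool) :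
    lF (bif nb then k1_1 else 0) (bw (nf B)) (Nat.add (bw (ct B)) k107_1)
      (bw fun s => if s.card = 1 then f s else 0) = bw (ff B f nb) := by
  unfold lF
  have hm : ∀ u ∈ R10, mm B 10 u < 32 := by
    intro u hu
    have h1 := tot_lt hB h157 hu
    unfold tot at h1
    omega
  have e1 : Nat.land (Nat.shiftRight (Nat.add (bw (nf B)) (Nat.add (bw (ct B)) k107_1)) 7)
      (bif nb then k1_1 else 0) = bw fun s => if s.card = 1 then
        (if nb = true ∧ 1 ≤ ∑ u ∈ s, mm B 10 u then 1 else 0) else 0 := by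
    cases nb with
    | false =>
      rw [cond_false]
      show _ &&& 0 = _
      rw [Nat.and_zero]
      have h0 : (0 : ℕ) = bw fun _ => 0 := by
        unfold bw pk
        simp
      refine h0.trans (bw_congr fun s _ => ?_)
      by_cases h : s.card = 1
      · rw [if_pos h, if_neg]
        rintro ⟨h2, -⟩
        exact Bool.false_ne_true h2
      · rw [if_neg h]
    | true =>
      rw [cond_true]
      show (bw (nf B) + (bw (ct B) + k107_1)) >>> 7 &&& k1_1 = _
      have hv : ∀ s ⊆ R10, s.card = 1 → nf B s + (ct B s + 107) = 2 * (∑ u ∈ s, mm B 10 u) + 126 := by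
        intro s hs h
        obtain ⟨u, rfl⟩ := card_eq_one.1 h
        have h1 := nf_ct hB (singleton_subset_iff.1 hs)
        rw [sum_singleton]
        omega
      have hs31 : ∀ s ⊆ R10, s.card = 1 → ∑ u ∈ s, mm B 10 u < 32 := by
        intro s hs h
        obtain ⟨u, rfl⟩ := card_eq_one.1 h
        rw [sum_singleton]
        exact hm u (singleton_subset_iff.1 hs)
      rw [k107_1_eq, k1_1_eq, lay_apply 107, bw_add, bw_add, bw_shr_lay]
      · refine bw_congr fun s hs => ?_
        by_cases h : s.card = 1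
        · rw [if_pos h, if_pos h, if_pos h, hv s hs h, nb_bits _ (hs31 s hs h)]
          refine if_congr ?_ rfl rfl
          exact ⟨fun h2 => ⟨rfl, h2⟩, fun h2 => h2.2⟩
        · rw [if_neg h, if_neg h]
      · intro s hs
        by_cases h : s.card = 1
        · rw [if_pos h, hv s hs h]
          have := hs31 s hs h
          omega
        · rw [if_neg h]
          unfold nf ct
          rw [if_neg h, if_neg h]
          norm_num
      · norm_num
      · norm_num
  have e2 : ∀ a b : ℕ, Nat.lor a b = a ||| b := fun _ _ => rfl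
  rw [e1, e2, bw_or]
  · refine bw_congr fun s _ => ?_
    unfold ff
    by_cases h : s.card = 1
    · rw [if_pos h, if_pos h, if_pos h]
    · rw [if_neg h, if_neg h, if_neg h]
      rfl
  · intro s
    split_ifs <;> omega
  · intro s
    have := hf s
    split_ifs <;> omega

/-- lower bound of a point -/
def ll (B : Finset (Finset (Fin 13))) (b : ℕ) (f : Finset (Fin 13) → ℕ) (nb : Bool)
    (s : Finset (Fin 13)) : ℕ :=
  if s.card = 1 then (8 - b) * ff B f nb s + b else 0

theorem lL_eq (b : ℕ) (nb : Bool) :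
    lL (8 - b) (Nat.mul b k1_1) (bw (ff B f nb)) = bw (ll B b f nb) := by
  unfold lL
  show (8 - b) * bw (ff B f nb) + b * k1_1 = _
  rw [k1_1_eq, lay_apply 1 1, bw_mul, bw_mul, bw_add]
  refine bw_congr fun s _ => ?_
  unfold ll
  by_cases h : s.card = 1
  · rw [if_pos h, if_pos h, Nat.mul_one]
  · rw [if_neg h, if_neg h]
    unfold ff
    rw [if_neg h, Nat.mul_zero, Nat.mul_zero]

theorem ll_le {b : ℕ} (hb : b ≤ 8) (hf : ∀ s, f s ≤ 1) (nb : Bool) (s : Finset (Fin 13)) :
    ll B b f nb s ≤ 8 := by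
  unfold ll
  have h1 := ff_le (B := B) hf nb s
  split_ifs
  · interval_cases h2 : (ff B f nb s) <;> omega
  · omega

theorem xf_le62 (hB : OddCover B) (h157 : B.card ≤ 157) {s : Finset (Fin 13)} (hs : s ⊆ R10) :
    xf B s ≤ 62 := by
  unfold xf
  split_ifs with h
  · obtain ⟨u, rfl⟩ := card_eq_one.1 h
    have h1 := tot_le hB (singleton_subset_iff.1 hs)
    have h2 := MM_le31 hB h157 u
    rw [sum_singleton]
    omega
  · omega

theorem land128' : ∀ x < 256, x &&& 128 = if 128 ≤ x then 128 else 0 := by decide +kernel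

theorem land127'' : ∀ x < 128, (128 + x) &&& 127 = x := by decide +kernel

theorem lr_eq (hB : OddCover B) (h157 : B.card ≤ 157) (hf : ∀ s, f s ≤ 1) {b : ℕ} (hb : b ≤ 8)
    (nb : Bool) : lr (bw (xf B)) (bw (ll B b f nb)) =
      bw fun s => max (ll B b f nb s) (xf B s) := by
  have hx := fun s hs => xf_le62 hB h157 (s := s) hs
  have hl := fun s => ll_le (B := B) hb hf nb s
  have h0 : ∀ s : Finset (Fin 13), s.card ≠ 1 → ll B b f nb s = 0 ∧ xf B s = 0 := by
    intro s h
    unfold ll xf
    rw [if_neg h, if_neg h]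
    exact ⟨rfl, rfl⟩
  unfold lr
  show bw (ll B b f nb) + ((bw (xf B) + (k128_1 - bw (ll B b f nb))) &&&
    (((bw (xf B) + (k128_1 - bw (ll B b f nb))) &&& k128_1) -
    ((bw (xf B) + (k128_1 - bw (ll B b f nb))) &&& k128_1) >>> 7)) = _
  have e0 : bw (xf B) + (k128_1 - bw (ll B b f nb)) = bw fun s => xf B s +
      ((if s.card = 1 then 128 else 0) - ll B b f nb s) := by
    rw [k128_1_eq, lay_apply 128 1, bw_sub', bw_add]
    intro s _
    by_cases h : s.card = 1
    · rw [if_pos h]
      have := hl s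
      omega
    · rw [if_neg h, (h0 s h).1]
  have hz : ∀ s ⊆ R10, xf B s + ((if s.card = 1 then 128 else 0) - ll B b f nb s) < 256 := by
    intro s hs
    have h1 := hx s hs
    split_ifs <;> omega
  have e1 : (bw fun s => xf B s + ((if s.card = 1 then 128 else 0) - ll B b f nb s)) &&& k128_1 =
      bw fun s => 128 * (if s.card = 1 ∧ ll B b f nb s ≤ xf B s then 1 else 0) := by
    rw [k128_1_eq, lay_apply 128 1, bw_land' hz]
    · refine bw_congr fun s hs => ?_
      by_cases h : s.card = 1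
      · have h1 := hx s hs
        have h2 := hl s
        rw [if_pos h, land128' _ (by omega)]
        by_cases h3 : ll B b f nb s ≤ xf B s
        · rw [if_pos (by omega), if_pos ⟨h, h3⟩]
        · rw [if_neg (by omega), if_neg fun h4 => h3 h4.2]
      · rw [if_neg h, Nat.and_zero, if_neg fun h4 => h h4.1]
    · intro s _
      split_ifs <;> omega
  have e2 : (bw fun s => 128 * (if s.card = 1 ∧ ll B b f nb s ≤ xf B s then 1 else 0)) >>> 7 =
      bw fun s => if s.card = 1 ∧ ll B b f nb s ≤ xf B s then 1 else 0 := by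
    rw [← bw_mul, Nat.shiftRight_eq_div_pow, show (2 : ℕ) ^ 7 = 128 by norm_num,
      Nat.mul_div_cancel_left _ (by norm_num)]
  rw [e0, e1, e2, bw_sub', bw_land' hz, bw_add]
  · refine bw_congr fun s hs => ?_
    have h1 := hx s hs
    have h2 := hl s
    by_cases h3 : s.card = 1 ∧ ll B b f nb s ≤ xf B s
    · have h4 : xf B s + (128 - ll B b f nb s) = 128 + (xf B s - ll B b f nb s) := by omega
      rw [if_pos h3, if_pos h3.1, show 128 * 1 - 1 = 127 by norm_num, h4,
        land127'' _ (by omega), max_eq_right h3.2]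
      omega
    · rw [if_neg h3, Nat.mul_zero, Nat.zero_sub, Nat.and_zero, Nat.add_zero]
      by_cases h : s.card = 1
      · have h4 : xf B s < ll B b f nb s := by
          by_contra h5
          exact h3 ⟨h, by omega⟩
        rw [max_eq_left (by omega)]
      · rw [(h0 s h).1, (h0 s h).2, max_self]
  · intro s _
    split_ifs <;> omega
  · intro s _
    split_ifs <;> omega

theorem sum_range_single (h : Finset (Fin 13) → ℕ) (h0 : ∀ s, s.card ≠ 1 → h s = 0) :
    ∑ m ∈ range 1024, h (ofMask m) = ∑ u ∈ R10, h {u} := by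
  have h1 : ∑ m ∈ (range 1024).filter (fun m => (ofMask m).card = 1), h (ofMask m) =
      ∑ m ∈ range 1024, h (ofMask m) := by
    refine sum_subset (filter_subset _ _) fun m _ hm2 => ?_
    refine h0 _ fun h2 => hm2 (mem_filter.2 ⟨by assumption, h2⟩)
  rw [← h1]
  refine (sum_bij (fun u _ => mk {u}) ?_ ?_ ?_ ?_).symm
  · intro u hu
    rw [mem_filter, mem_range, ofMask_mk]
    exact ⟨mk_lt_R10.2 (singleton_subset_iff.2 hu), card_singleton u⟩
  · intro a _ b _ hab
    exact singleton_injective (mk_injective hab)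
  · intro m hm
    rw [mem_filter, mem_range, card_eq_one] at hm
    obtain ⟨h2, u, hu⟩ := hm
    refine ⟨u, ?_, ?_⟩
    · have h3 := ofMask_subset_R10 h2
      rw [hu] at h3
      exact singleton_subset_iff.1 h3
    · rw [← hu]
      exact mk_ofMask (by omega)
  · intro u _
    rw [ofMask_mk]

theorem sum_MM_split (B : Finset (Finset (Fin 13))) :
    ∑ z, MM B z = ∑ u ∈ R10, MM B u + (MM B 10 + MM B 11 + MM B 12) := by
  have h1 : (univ : Finset (Fin 13)) = insert 12 (insert 11 (insert 10 R10)) := by decide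
  rw [h1, sum_insert (by decide), sum_insert (by decide), sum_insert (by decide)]
  omega

/-- **SOUNDNESS OF THE LANE KILL** -/
theorem laneK_sound (hB : OddCover B) (h157 : B.card ≤ 157) (hf : ∀ s, f s ≤ 1) {b : ℕ}
    (hb : b ≤ 8) (hlow : ∀ u ∈ R10, b ≤ MM B u) (hflag : ∀ u ∈ R10, f {u} = 1 → 8 ≤ MM B u)
    {nb : Bool} (hnb : nb = true → ∀ u ∈ R10, 1 ≤ mm B 10 u → 8 ≤ MM B u)
    {T : ℕ} (hT : 88 < T + (MM B 10 + MM B 11 + MM B 12)) :
    laneK T (bw (vx B)) (Nat.add (bw (pc B)) k122_2) (Nat.add (bw (pc B)) k119_2)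
      (Nat.add (bw (pc B)) k116_2) (bw (ra B)) (Nat.add (bw (ct B)) k107_1)
      (bw fun s => if s.card = 1 then f s else 0) (bif nb then k1_1 else 0) (8 - b)
      (Nat.mul b k1_1) (bw (ind (zR B))) = false := by
  unfold laneK
  beta_reduce
  rw [lN_eq hB, lf_eq hB, lt_eq hB h157, lX_eq hB h157, lF_eq hB h157 hf, lL_eq,
    lr_eq hB h157 hf hb]
  have h1 := Pool.Agent.Helper97.CV.Kill10.pk_mod255 1024
    (fun m => max (ll B b f nb (ofMask m)) (xf B (ofMask m)))
  have h2 : ∑ m ∈ range 1024, max (ll B b f nb (ofMask m)) (xf B (ofMask m)) =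
      ∑ u ∈ R10, max (ll B b f nb {u}) (xf B {u}) := by
    refine sum_range_single (fun s => max (ll B b f nb s) (xf B s)) fun s h => ?_
    unfold ll xf
    rw [if_neg h, if_neg h]
    rfl
  have h3 : ∑ u ∈ R10, max (ll B b f nb {u}) (xf B {u}) ≤ ∑ u ∈ R10, MM B u := by
    refine sum_le_sum fun u hu => max_le ?_ ?_
    · unfold ll ff
      rw [card_singleton, if_pos rfl, if_pos rfl, sum_singleton]
      have h4 := hf {u}
      have h5 := hlow u hu
      by_cases h6 : f {u} = 1
      · have h7 := hflag u hu h6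
        have h8 : (if nb = true ∧ 1 ≤ mm B 10 u then 1 else 0) ||| f {u} ≤ 1 :=
          or_le_one (by split_ifs <;> omega) h4
        generalize (if nb = true ∧ 1 ≤ mm B 10 u then 1 else 0) ||| f {u} = x at h8
        interval_cases x <;> omega
      · have h8 : f {u} = 0 := by omega
        rw [h8, Nat.or_zero]
        by_cases h9 : nb = true ∧ 1 ≤ mm B 10 u
        · have h10 := hnb h9.1 u hu h9.2
          rw [if_pos h9]
          omega
        · rw [if_neg h9]
          omega
    · unfold xf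
      rw [card_singleton, if_pos rfl, sum_singleton]
      have h4 := tot_le hB hu
      obtain ⟨k, hk⟩ := MM_even hB u
      omega
  have h4 := sum_MM_le hB h157
  rw [sum_MM_split] at h4
  rw [h2] at h1
  by_contra hc
  rw [Bool.not_eq_false, Nat.ble_eq] at hc
  have h5 : Nat.mod (bw fun s => max (ll B b f nb s) (xf B s)) 255 =
      pk 8 1024 (fun m => max (ll B b f nb (ofMask m)) (xf B (ofMask m))) % 255 := rfl
  rw [h5] at hc
  omega

end

end Pool.Agent.Helper81.TY
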