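import Pool.Agent.Helper81.TY.Run

/-!
MP_8ee768_co, project TH-Y': THE CHUNK RUN of a third point: all lanes of a glued type against the
pair word `Q`. `T` threshold, `b` lower bound of all `MM`, `nb`: the neighbours of the third point
are heavy, `ct X f a L c`: check of a lane which is not dead, with the words `X` = parities of the
quads, `f` = pair word, `a` = row offsets plus one, `L` = lower bounds, `c` = stream; result 0 =
failure. `piece` = pieces of 64 lanes, `P` = first piece, `N` = number of lanes.
-/

set_option autoImplicit false
set_option exponentiation.threshold 20000

namespace Pool.Agent.Helper81.TY

/-- 4 on the pairs -/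
def k4_2 : ℕ := 0x4000000000000000000000000000000000000000000000000000000000000000000000000000000000000000000000000000000000000000000000000000000000000000000000000000000000000000000000000000000000000000000000000000000000000000000000000000000000000000000000000000000000000000400000000000000000000000000000000000000000000000000000000000000000000000000000000000000000000000000000000000000000000000000000004000000000000000000000000000000000000000000000000000000000000000400000000000000000000000000000004000000000000000400000004000404000000000000000000000000000000000000000000000000000000000000000000000000000000000000000000000000000000000000000000000000000000000000000000000000000000000000000000000000000000000000000000000000000000000000000000000000000000000000000000000000000000000000000004000000000000000000000000000000000000000000000000000000000000000000000000000000000000000000000000000000000000000000000000000000040000000000000000000000000000000000000000000000000000000000000004000000000000000000000000000000040000000000000004000000040004040000000000000000000000000000000000000000000000000000000000000000000000000000000000000000000000000000000000000000000000000000000004000000000000000000000000000000000000000000000000000000000000000400000000000000000000000000000004000000000000000400000004000404000000000000000000000000000000000000000000000000000000000000000004000000000000000000000000000000040000000000000004000000040004040000000000000000000000000000000004000000000000000400000004000404000000000000000004000000040004040000000004000404000004040004000000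

/-- the check of a lane which is not dead -/
def ctw (ct : ℕ → ℕ → ℕ → ℕ → ℕ → ℕ) (V Pc A A' G kN b8 bk U c : ℕ) : ℕ :=
  force c (Nat.xor U V) fun X =>
  force c (Nat.sub (Nat.add (lf V U) Pc) k4_2) fun f =>
  force c (Nat.land (Nat.shiftRight (Nat.add (lN U) A) 1) k63_1) fun a =>
  force c (lL b8 bk (lF kN (lN U) A' G)) fun L => ct X f a L c

/-- **the chunk run** -/
def chunkRun (T b : ℕ) (nb : Bool) (ct : ℕ → ℕ → ℕ → ℕ → ℕ → ℕ) (piece : ℕ → ℕ)
    (P N Q c : ℕ) : ℕ :=
  (fun Q0 Qh => (fun V Pc C => (fun A A' G kN b8 bk =>
    rowRun (laneK T V (Nat.add Pc k122_2) (Nat.add Pc k119_2) (Nat.add Pc k116_2) A A' G kN b8 bk)
      (ctw ct V Pc A A' G kN b8 bk) piece P N c)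
    (zA Q0 C) (Nat.add C k107_1) (zG Q0) (@Bool.rec (fun _ => ℕ) 0 k1_1 nb) (Nat.sub 8 b)
    (Nat.mul b k1_1)) (zV Q0) (zP Q0 Qh) (zC Qh))
  (Nat.mod Q (Nat.pow 2 8192)) (Nat.shiftRight Q 8192)

end Pool.Agent.Helper81.TY
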