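import Pool.Agent.Helper81.TY.LaneWord
import Pool.Agent.Helper81.TY.LaneSound
import Pool.Agent.Helper81.TY.Chunk

/-!
MP_8ee768_co, project TH-Y': soundness of the chunk run.
-/

set_option autoImplicit false
set_option exponentiation.threshold 20000

namespace Pool.Agent.Helper81.TY

open Finset
open Pool.Agent.Helper89.CV (OddCover ofMask)
open Pool.Agent.Helper97.CV Pool.Agent.Helper79.CV Pool.Agent.Helper33.CV
open Pool.Agent.Helper63.SIMD
open Pool.Agent.Helper33.TY (ind ind_le P1 PW qf corr cC lay8)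

theorem k4_2_eq : k4_2 = lay 4 2 := by
  rw [← lay8_lay]
  decide +kernel

section

variable {B : Finset (Finset (Fin 13))} {f : Finset (Fin 13) → ℕ}

/-- `X`: parities of the quads in the blocks that meet `{10, 11, 12}` -/
def xw (B : Finset (Finset (Fin 13))) (s : Finset (Fin 13)) : ℕ := ind (zR B) s ^^^ vx B s

/-- `f`: pair word of the blocks that meet `{10, 11, 12}` -/
def pw (B : Finset (Finset (Fin 13))) (s : Finset (Fin 13)) : ℕ :=
  if s.card = 2 then fs B s + pc B s - 4 else 0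

/-- `a`: row offsets plus one -/
def aw (B : Finset (Finset (Fin 13))) (s : Finset (Fin 13)) : ℕ :=
  if s.card = 1 then (∑ u ∈ s, (mm B 12 u + mm B 11 u + mm B 10 u)) + 1 else 0

theorem xw_eq : Nat.xor (bw (ind (zR B))) (bw (vx B)) = bw (xw B) := by
  show bw (ind (zR B)) ^^^ bw (vx B) = _
  rw [bw_xor (fun s _ => by have := ind_le (zR B) s; omega)
    (fun s _ => by have := vx_le B s; omega)]
  rfl

/-- on the quads -/
theorem xw_quad {s : Finset (Fin 13)} (hs : s ⊆ R10) (h4 : s.card = 4) :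
    xw B s = li B 10 s ^^^ (li B 12 s ^^^ li B 11 s) := by
  unfold xw vx
  rw [if_pos h4, ind_zR hs]

/-- outside the quads -/
theorem xw_other (hB : OddCover B) {s : Finset (Fin 13)} (h4 : s.card ≠ 4) : xw B s = 0 := by
  unfold xw vx
  rw [if_neg h4, (fam_zR hB).ind_zero h4]
  rfl

theorem four_le (hB : OddCover B) {s : Finset (Fin 13)} (hs : s ⊆ R10) (h2 : s.card = 2) :
    4 ≤ fs B s + pc B s := by
  have h := sum_ex10 hB hs h2
  unfold fs pc
  rw [if_pos h2, if_pos h2]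
  omega

theorem pw_eq (hB : OddCover B) :
    Nat.sub (Nat.add (lf (bw (vx B)) (bw (ind (zR B)))) (bw (pc B))) k4_2 = bw (pw B) := by
  rw [lf_eq hB, k4_2_eq, lay_apply 4 2, Nat.add_eq, bw_add]
  show (bw fun s => fs B s + pc B s) - (bw fun s => if s.card = 2 then 4 else 0) = _
  rw [bw_sub']
  · refine bw_congr fun s hs => ?_
    unfold pw
    by_cases h2 : s.card = 2
    · rw [if_pos h2, if_pos h2]
    · rw [if_neg h2, if_neg h2]
      unfold fs pc
      rw [if_neg h2, if_neg h2]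
  · intro s hs
    show (if s.card = 2 then 4 else 0) ≤ fs B s + pc B s
    by_cases h2 : s.card = 2
    · rw [if_pos h2]
      exact four_le hB hs h2
    · rw [if_neg h2]
      exact Nat.zero_le _

theorem pw_le (hB : OddCover B) {s : Finset (Fin 13)} (hs : s ⊆ R10) (h2 : s.card = 2) :
    pw B s ≤ Lam B s := by
  have h := fs_pc hB hs h2
  unfold pw
  rw [if_pos h2]
  omega

theorem aw_bits : ∀ x < 32, ((2 * x + 130) / 2 ^ 1) &&& 63 = x + 1 := by decide

theorem aw_eq (hB : OddCover B) (h157 : B.card ≤ 157) :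
    Nat.land (Nat.shiftRight (Nat.add (lN (bw (ind (zR B)))) (bw (ra B))) 1) k63_1 = bw (aw B) := by
  rw [lN_eq hB, Nat.add_eq, bw_add, k63_1_eq]
  have hv : ∀ u ∈ R10, nf B {u} + ra B {u} =
      2 * (mm B 12 u + mm B 11 u + mm B 10 u) + 130 := by
    intro u hu
    have h1 := nf_ct hB hu
    rw [ra_ct B (card_singleton u), sum_singleton]
    omega
  have hl : ∀ u ∈ R10, mm B 12 u + mm B 11 u + mm B 10 u < 32 := by
    intro u hu
    have h1 := tot_lt hB h157 hu
    unfold tot at h1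
    omega
  show (bw fun s => _) >>> 1 &&& lay 63 1 = _
  rw [bw_shr_lay]
  · refine bw_congr fun s hs => ?_
    unfold aw
    by_cases h : s.card = 1
    · rw [if_pos h, if_pos h]
      obtain ⟨u, rfl⟩ := card_eq_one.1 h
      have hu := singleton_subset_iff.1 hs
      rw [hv u hu, aw_bits _ (hl u hu), sum_singleton]
    · rw [if_neg h, if_neg h]
  · intro s hs
    by_cases h : s.card = 1
    · obtain ⟨u, rfl⟩ := card_eq_one.1 h
      have hu := singleton_subset_iff.1 hs
      have h1 := hv u hu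
      have h2 := hl u hu
      omega
    · unfold ra nf
      rw [if_neg h, if_neg h]
      norm_num
  · norm_num
  · norm_num

/-- the lower bounds are valid -/
theorem ll_le_MM (hf : ∀ s, f s ≤ 1) {b : ℕ}
    (hb : b ≤ 8) (hlow : ∀ u ∈ R10, b ≤ MM B u) (hflag : ∀ u ∈ R10, f {u} = 1 → 8 ≤ MM B u)
    {nb : Bool} (hnb : nb = true → ∀ u ∈ R10, 1 ≤ mm B 10 u → 8 ≤ MM B u) {u : Fin 13}
    (hu : u ∈ R10) : ll B b f nb {u} ≤ MM B u := by
  unfold ll ff
  rw [card_singleton, if_pos rfl, if_pos rfl, sum_singleton]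
  have h4 := hf {u}
  have h5 := hlow u hu
  by_cases h6 : f {u} = 1
  · have h7 := hflag u hu h6
    have h8 : (if nb = true ∧ 1 ≤ mm B 10 u then 1 else 0) ||| f {u} ≤ 1 :=
      or_le_one (by split_ifs <;> omega) h4
    generalize (if nb = true ∧ 1 ≤ mm B 10 u then 1 else 0) ||| f {u} = x at h8
    interval_cases x <;> omega
  · have h8 : f {u} = 0 := by omega
    rw [h8, Nat.or_zero]
    by_cases h9 : nb = true ∧ 1 ≤ mm B 10 u
    · have h10 := hnb h9.1 u hu h9.2
      rw [if_pos h9]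
      omega
    · rw [if_neg h9]
      omega

theorem bif_rec (nb : Bool) : @Bool.rec (fun _ => ℕ) 0 k1_1 nb = bif nb then k1_1 else 0 := by
  cases nb <;> rfl

theorem grpW_lt (W g : ℕ) : grpW W g < 2 ^ 1680 := by
  unfold grpW
  rw [m1680_eq]
  show (W >>> (1680 * g)) &&& (2 ^ 1680 - 1) < 2 ^ 1680
  rw [Nat.and_two_pow_sub_one_eq_mod]
  exact Nat.mod_lt _ (Nat.two_pow_pos _)

theorem grpW_lane (W k : ℕ) :
    (grpW W (k % 64 / 8) >>> (210 * (k % 8))) % 2 ^ 210 = (W >>> (210 * (k % 64))) % 2 ^ 210 := by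
  unfold grpW
  rw [m1680_eq]
  show (((W >>> (1680 * (k % 64 / 8))) &&& (2 ^ 1680 - 1)) >>> (210 * (k % 8))) % 2 ^ 210 = _
  rw [Nat.and_two_pow_sub_one_eq_mod]
  refine Nat.eq_of_testBit_eq fun t => ?_
  rw [Nat.testBit_mod_two_pow, Nat.testBit_mod_two_pow, Nat.testBit_shiftRight,
    Nat.testBit_mod_two_pow, Nat.testBit_shiftRight, Nat.testBit_shiftRight]
  have h1 : 1680 * (k % 64 / 8) + (210 * (k % 8) + t) = 210 * (k % 64) + t := by omega
  rw [h1]
  by_cases ht : t < 210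
  · have h2 : 210 * (k % 8) + t < 1680 := by omega
    rw [decide_eq_true ht, decide_eq_true h2, Bool.true_and, Bool.true_and]
  · rw [decide_eq_false ht, Bool.false_and, Bool.false_and]

/-- **the chunk run finds the contradiction** -/
theorem chunk_sound (hB : OddCover B) (h157 : B.card ≤ 157) {Q : ℕ} (hQ : PW B Q) {b : ℕ}
    (hb : b ≤ 8) (hlow : ∀ u ∈ R10, b ≤ MM B u)
    {nb : Bool} (hnb : nb = true → ∀ u ∈ R10, 1 ≤ mm B 10 u → 8 ≤ MM B u)
    {T : ℕ} (hT : 88 < T + (MM B 10 + MM B 11 + MM B 12)) {piece : ℕ → ℕ} {P N k : ℕ}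
    (hk : k < N)
    (hlane : enc 10 4 (link B 10) = (piece (P + k / 64) >>> (210 * (k % 64))) % 2 ^ 210)
    {ct : ℕ → ℕ → ℕ → ℕ → ℕ → ℕ}
    (hct : ∀ (l : Finset (Fin 13) → ℕ) (c : ℕ), (∀ s, s.card ≠ 1 → l s = 0) → (∀ s, l s ≤ 8) →
      (∀ u ∈ R10, l {u} ≤ MM B u) → ct (bw (xw B)) (bw (pw B)) (bw (aw B)) (bw l) c = 0)
    (c : ℕ) : chunkRun T b nb ct piece P N Q c = 0 := by
  by_contra hne
  obtain ⟨f, hQe, hf, hfl⟩ := hQ
  have hflag : ∀ u ∈ R10, f {u} = 1 → 8 ≤ MM B u := fun u hu =>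
    hfl u (by have := mem_R10.1 hu; omega)
  have e1 : Nat.mod Q (Nat.pow 2 8192) = bw (qf B f) := by
    rw [hQe]
    exact bw11_low (q0_lt hB hf)
  have e2 : Nat.shiftRight Q 8192 = bw (fun s => qf B f (insert 10 s)) := by
    rw [hQe]
    exact bw11_high (q0_lt hB hf)
  have e3 : chunkRun T b nb ct piece P N Q c =
      rowRun (laneK T (bw (vx B)) (Nat.add (bw (pc B)) k122_2) (Nat.add (bw (pc B)) k119_2)
        (Nat.add (bw (pc B)) k116_2) (bw (ra B)) (Nat.add (bw (Pool.Agent.Helper81.TY.ct B)) k107_1)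
        (bw fun s => if s.card = 1 then f s else 0) (bif nb then k1_1 else 0) (8 - b)
        (Nat.mul b k1_1))
      (ctw ct (bw (vx B)) (bw (pc B)) (bw (ra B))
        (Nat.add (bw (Pool.Agent.Helper81.TY.ct B)) k107_1)
        (bw fun s => if s.card = 1 then f s else 0) (bif nb then k1_1 else 0) (8 - b)
        (Nat.mul b k1_1)) piece P N c := by
    unfold chunkRun
    beta_reduce
    rw [e1, e2, zC_eq hB hf, zA_eq hB h157 hf, zV_eq hB hf, zP_eq hB hf, zG_eq hB h157 hf,
      bif_rec nb]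
    rfl
  rw [e3] at hne
  have h1 := rowRun_ne hne k hk
  have h2 : lw (exp8 (grpW (piece (P + k / 64)) (k % 64 / 8))) (k % 8) = bw (ind (zR B)) := by
    refine lane_word (grpW_lt _ _) (Nat.mod_lt _ (by norm_num)) hB ?_
    rw [grpW_lane, hlane]
  rw [h2] at h1
  rcases h1 with h1 | ⟨c', h1⟩
  · rw [laneK_sound hB h157 hf hb hlow hflag hnb hT] at h1
    exact Bool.false_ne_true h1
  · apply h1
    unfold ctw
    rw [force_eq, force_eq, force_eq, force_eq, xw_eq, pw_eq hB, aw_eq hB h157, lN_eq hB,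
      lF_eq hB h157 hf, lL_eq]
    refine hct (ll B b f nb) c' ?_ (ll_le hb hf nb) (fun u hu => ll_le_MM hf hb hlow hflag hnb hu)
    intro s hs
    unfold ll
    rw [if_neg hs]

end

end Pool.Agent.Helper81.TY
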