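import Pool.Agent.Helper81.TY.Low

/-!
MP_8ee768_co, project TH-Y': the counting behind the lane kill. `K = {10, 11, 12}`; everything about
the blocks which meet `K` is known.
-/

set_option autoImplicit false

namespace Pool.Agent.Helper81.TY

open Finset
open Pool.Agent.Helper89.CV (OddCover ofMask)
open Pool.Agent.Helper97.CV Pool.Agent.Helper79.CV Pool.Agent.Helper33.CV
open Pool.Agent.Helper33.TY (ind P1 cnt_split_special)

/-- the quads of the link of 10 inside the ten points -/
def zR (B : Finset (Finset (Fin 13))) : Finset (Finset (Fin 13)) :=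
  ((link B 10).filter fun b => 12 ∉ b).filter fun b => 11 ∉ b

/-- the triples of the ten points in blocks with 10, 12, not 11 -/
def zT12 (B : Finset (Finset (Fin 13))) : Finset (Finset (Fin 13)) :=
  (link (link B 10) 12).filter fun b => 11 ∉ b

/-- the triples of the ten points in blocks with 10, 11, not 12 -/
def zT11 (B : Finset (Finset (Fin 13))) : Finset (Finset (Fin 13)) :=
  link ((link B 10).filter fun b => 12 ∉ b) 11

/-- the pairs of the ten points in blocks with 10, 11, 12 -/
def zF (B : Finset (Finset (Fin 13))) : Finset (Finset (Fin 13)) :=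
  link (link (link B 10) 12) 11

theorem notMem_R10 {a : Fin 13} (ha : ¬ a.val < 10) {s : Finset (Fin 13)} (hs : s ⊆ R10) :
    a ∉ s := fun h => ha (mem_R10.1 (hs h))

theorem mem_R10_of {a : Fin 13} (h10 : a ≠ 10) (h11 : a ≠ 11) (h12 : a ≠ 12) : a ∈ R10 := by
  rw [mem_R10]
  have h : ∀ a : Fin 13, a ≠ 10 → a ≠ 11 → a ≠ 12 → a.val < 10 := by decide
  exact h a h10 h11 h12

section

variable {B : Finset (Finset (Fin 13))}

theorem mem_zR {s : Finset (Fin 13)} (hs : s ⊆ R10) : s ∈ zR B ↔ insert 10 s ∈ B := by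
  unfold zR
  rw [mem_filter, mem_filter, mem_link]
  have h10 : (10 : Fin 13) ∉ s := notMem_R10 (by decide) hs
  have h11 : (11 : Fin 13) ∉ s := notMem_R10 (by decide) hs
  have h12 : (12 : Fin 13) ∉ s := notMem_R10 (by decide) hs
  tauto

theorem mem_zT12 {s : Finset (Fin 13)} (hs : s ⊆ R10) :
    s ∈ zT12 B ↔ insert 10 (insert 12 s) ∈ B := by
  unfold zT12
  rw [mem_filter, mem_link, mem_link, mem_insert, not_or]
  have h10 : (10 : Fin 13) ∉ s := notMem_R10 (by decide) hs
  have h11 : (11 : Fin 13) ∉ s := notMem_R10 (by decide) hs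
  have h12 : (12 : Fin 13) ∉ s := notMem_R10 (by decide) hs
  have h : (10 : Fin 13) ≠ 12 := by decide
  tauto

theorem mem_zT11 {s : Finset (Fin 13)} (hs : s ⊆ R10) :
    s ∈ zT11 B ↔ insert 10 (insert 11 s) ∈ B := by
  unfold zT11
  rw [mem_link, mem_filter, mem_link, mem_insert, not_or, mem_insert, not_or]
  have h10 : (10 : Fin 13) ∉ s := notMem_R10 (by decide) hs
  have h11 : (11 : Fin 13) ∉ s := notMem_R10 (by decide) hs
  have h12 : (12 : Fin 13) ∉ s := notMem_R10 (by decide) hs
  have h : (10 : Fin 13) ≠ 11 := by decide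
  have h' : (12 : Fin 13) ≠ 11 := by decide
  tauto

theorem mem_zF {s : Finset (Fin 13)} (hs : s ⊆ R10) :
    s ∈ zF B ↔ insert 10 (insert 12 (insert 11 s)) ∈ B := by
  unfold zF
  rw [mem_link, mem_link, mem_link, mem_insert, not_or, mem_insert, not_or, mem_insert, not_or]
  have h10 : (10 : Fin 13) ∉ s := notMem_R10 (by decide) hs
  have h11 : (11 : Fin 13) ∉ s := notMem_R10 (by decide) hs
  have h12 : (12 : Fin 13) ∉ s := notMem_R10 (by decide) hs
  have h : (10 : Fin 13) ≠ 12 := by decide
  have h' : (10 : Fin 13) ≠ 11 := by decide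
  have h'' : (12 : Fin 13) ≠ 11 := by decide
  tauto

theorem fam_aux {s : Finset (Fin 13)} (h10 : (10 : Fin 13) ∉ s) (h11 : (11 : Fin 13) ∉ s)
    (h12 : (12 : Fin 13) ∉ s) : s ⊆ R10 := by
  intro a ha
  refine mem_R10_of ?_ ?_ ?_ <;> rintro rfl
  · exact h10 ha
  · exact h11 ha
  · exact h12 ha

theorem fam_zR (hB : OddCover B) : Fam10 4 (zR B) := by
  intro b hb
  have h : ((10 : Fin 13) ∉ b ∧ insert 10 b ∈ B) ∧ 12 ∉ b ∧ 11 ∉ b := by
    unfold zR at hb
    rw [mem_filter, mem_filter, mem_link] at hb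
    tauto
  refine ⟨fam_aux h.1.1 h.2.2 h.2.1, ?_⟩
  have h1 := hB.1 _ h.1.2
  rw [card_insert_of_notMem h.1.1] at h1
  omega

theorem fam_zT12 (hB : OddCover B) : Fam10 3 (zT12 B) := by
  intro b hb
  unfold zT12 at hb
  rw [mem_filter, mem_link, mem_link] at hb
  obtain ⟨⟨h12, h10, h⟩, h11⟩ := hb
  have h10' : (10 : Fin 13) ∉ b := fun h2 => h10 (mem_insert_of_mem h2)
  refine ⟨fam_aux h10' h11 h12, ?_⟩
  have h1 := hB.1 _ h
  rw [card_insert_of_notMem h10, card_insert_of_notMem h12] at h1
  omega

theorem fam_zT11 (hB : OddCover B) : Fam10 3 (zT11 B) := by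
  intro b hb
  unfold zT11 at hb
  rw [mem_link, mem_filter, mem_link] at hb
  obtain ⟨h11, ⟨h10, h⟩, h12⟩ := hb
  have h10' : (10 : Fin 13) ∉ b := fun h2 => h10 (mem_insert_of_mem h2)
  have h12' : (12 : Fin 13) ∉ b := fun h2 => h12 (mem_insert_of_mem h2)
  refine ⟨fam_aux h10' h11 h12', ?_⟩
  have h1 := hB.1 _ h
  rw [card_insert_of_notMem h10, card_insert_of_notMem h11] at h1
  omega

theorem fam_zF (hB : OddCover B) : Fam10 2 (zF B) := by
  intro b hb
  unfold zF at hb
  rw [mem_link, mem_link, mem_link] at hb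
  obtain ⟨h11, h12, h10, h⟩ := hb
  have h10' : (10 : Fin 13) ∉ b := fun h2 => h10 (mem_insert_of_mem (mem_insert_of_mem h2))
  have h12' : (12 : Fin 13) ∉ b := fun h2 => h12 (mem_insert_of_mem h2)
  refine ⟨fam_aux h10' h11 h12', ?_⟩
  have h1 := hB.1 _ h
  rw [card_insert_of_notMem h10, card_insert_of_notMem h12, card_insert_of_notMem h11] at h1
  omega

/-- covering numbers of the sets through 10 -/
theorem cnt_insert10 {s : Finset (Fin 13)} (hs : s ⊆ R10) :
    cnt B (insert 10 s) = cnt (zR B) s + cnt (zT11 B) s + (cnt (zT12 B) s + cnt (zF B) s) := by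
  have h10 : (10 : Fin 13) ∉ s := notMem_R10 (by decide) hs
  have h11 : (11 : Fin 13) ∉ s := notMem_R10 (by decide) hs
  have h12 : (12 : Fin 13) ∉ s := notMem_R10 (by decide) hs
  rw [← cnt_link B h10, cnt_split_special (link B 10) h12,
    cnt_split_special ((link B 10).filter fun b => 12 ∉ b) h11,
    cnt_split_special (link (link B 10) 12) h11]
  rfl

theorem cnt_same10 {k : ℕ} {F : Finset (Finset (Fin 13))} (hF : Fam10 k F)
    {s : Finset (Fin 13)} (hs : s.card = k) : cnt F s = ind F s := by
  have h := sup_count10 (i := k) (j := 0) (by rw [Nat.add_zero]; exact hF) hs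
  rw [← h, powersetCard_zero, filter_singleton, if_pos (disjoint_empty_right s),
    sum_singleton, union_empty]

theorem cnt_zero10 {k : ℕ} {F : Finset (Finset (Fin 13))} (hF : Fam10 k F)
    {s : Finset (Fin 13)} (hs : k < s.card) : cnt F s = 0 := by
  unfold cnt
  rw [card_eq_zero, filter_eq_empty_iff]
  intro b hb h
  have h1 := (hF b hb).2
  have h2 := card_le_card h
  omega

/-- the excess of a quad `10 + τ` -/
theorem two_ex10 (hB : OddCover B) {s : Finset (Fin 13)} (hs : s ⊆ R10) (h3 : s.card = 3) :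
    2 * ex B (insert 10 s) + 1 = cnt (zR B) s + cnt (zT11 B) s + cnt (zT12 B) s := by
  have h10 : (10 : Fin 13) ∉ s := notMem_R10 (by decide) hs
  have h := cnt_quad hB (q := insert 10 s) (by rw [card_insert_of_notMem h10, h3])
  rw [cnt_insert10 hs, cnt_zero10 (fam_zF hB) (by omega)] at h
  omega

/-- summing over the third point -/
theorem sum_third {F : Finset (Finset (Fin 13))} {k : ℕ} (hF : Fam10 k F)
    (s : Finset (Fin 13)) :
    ∑ v ∈ R10 \ s, cnt F (insert v s) = (k - s.card) * cnt F s := by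
  have h := double_count F k (fun b hb => (hF b hb).2) (fun _ => 1) s
  have h1 : ∀ t : Finset (Fin 13), ∑ b ∈ F.filter (fun b => t ⊆ b), 1 = cnt F t := by
    intro t
    rw [← card_eq_sum_ones]
    rfl
  rw [h1] at h
  rw [← h]
  have h2 : R10 \ s ⊆ sᶜ := fun a ha => mem_compl.2 (mem_sdiff.1 ha).2
  rw [← sum_subset h2]
  · exact sum_congr rfl fun v _ => (h1 _).symm
  · intro v hv hv2
    rw [h1]
    unfold cnt
    rw [card_eq_zero, filter_eq_empty_iff]
    intro b hb hsub
    refine hv2 (mem_sdiff.2 ⟨(hF b hb).1 (hsub (mem_insert_self v s)), mem_compl.1 hv⟩)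

/-- the excess of the quads through `s` and 10, avoiding 11 and 12 -/
theorem sum_ex10 (hB : OddCover B) {s : Finset (Fin 13)} (hs : s ⊆ R10) (h2 : s.card = 2) :
    2 * (∑ w ∈ R10 \ s, ex B (insert 10 (insert w s))) + 8 =
      2 * cnt (zR B) s + (cnt (zT11 B) s + cnt (zT12 B) s) := by
  have hw : ∀ w ∈ R10 \ s, 2 * ex B (insert 10 (insert w s)) + 1 =
      cnt (zR B) (insert w s) + cnt (zT11 B) (insert w s) + cnt (zT12 B) (insert w s) := by
    intro w hw
    rw [mem_sdiff] at hw
    exact two_ex10 hB (insert_subset hw.1 hs) (by rw [card_insert_of_notMem hw.2, h2])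
  have h8 : (R10 \ s).card = 8 := by
    rw [card_sdiff_of_subset hs, h2, show R10.card = 10 by decide]
  have h := sum_congr rfl hw
  rw [sum_add_distrib, sum_add_distrib, sum_add_distrib, ← mul_sum,
    sum_third (fam_zR hB) s, sum_third (fam_zT11 hB) s,
    sum_third (fam_zT12 hB) s, sum_const, h8, h2] at h
  simp only [smul_eq_mul] at h
  omega

/-- indicator of the membership in a link -/
def li (B : Finset (Finset (Fin 13))) (x : Fin 13) (s : Finset (Fin 13)) : ℕ :=
  if s ∈ link B x then 1 else 0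

theorem li_le (B : Finset (Finset (Fin 13))) (x : Fin 13) (s : Finset (Fin 13)) :
    li B x s ≤ 1 := by
  unfold li
  split_ifs <;> omega

/-- known excess of a quad of the ten points -/
def mj (B : Finset (Finset (Fin 13))) (s : Finset (Fin 13)) : ℕ :=
  (li B 12 s &&& li B 11 s) + (ind (zR B) s &&& (li B 12 s ^^^ li B 11 s))

theorem ind_zR {s : Finset (Fin 13)} (hs : s ⊆ R10) : ind (zR B) s = li B 10 s := by
  unfold ind li
  have h10 : (10 : Fin 13) ∉ s := notMem_R10 (by decide) hs
  refine if_congr ?_ rfl rfl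
  rw [mem_zR hs, mem_link]
  tauto

theorem mj_le {s : Finset (Fin 13)} (hs : s ⊆ R10) : mj B s ≤ ex B s := by
  have h := ex_ge_of_links (B := B) (K := {10, 11, 12}) (q := s) (by
    rw [disjoint_left]
    intro a ha hb
    have h1 := mem_R10.1 (hs hb)
    rw [mem_insert, mem_insert, mem_singleton] at ha
    rcases ha with rfl | rfl | rfl
    · exact absurd h1 (by decide)
    · exact absurd h1 (by decide)
    · exact absurd h1 (by decide))
  refine le_trans ?_ h
  rw [filter_insert, filter_insert, filter_singleton]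
  unfold mj
  rw [ind_zR hs]
  unfold li
  by_cases h1 : s ∈ link B 10 <;> by_cases h2 : s ∈ link B 11 <;> by_cases h3 : s ∈ link B 12 <;>
    simp [h1, h2, h3]

/-- the sum over the quads inside the ten points -/
theorem sum_inside {s : Finset (Fin 13)} (hs : s ⊆ R10) (h2 : s.card = 2)
    (f : Finset (Fin 13) → ℕ) :
    ∑ q ∈ quads.filter (fun q => s ⊆ q ∧ q ⊆ R10), f q =
      ∑ t ∈ (R10.powersetCard 2).filter (Disjoint s), f (s ∪ t) := by
  refine sum_bij' (fun q _ => q \ s) (fun t _ => s ∪ t) ?_ ?_ ?_ ?_ ?_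
  · intro q hq
    rw [mem_filter, mem_quads] at hq
    rw [mem_filter, mem_powersetCard]
    refine ⟨⟨(sdiff_subset).trans hq.2.2, ?_⟩, disjoint_sdiff⟩
    rw [card_sdiff_of_subset hq.2.1, hq.1, h2]
  · intro t ht
    rw [mem_filter, mem_powersetCard] at ht
    rw [mem_filter, mem_quads, card_union_of_disjoint ht.2, h2, ht.1.2]
    exact ⟨rfl, subset_union_left, union_subset hs ht.1.1⟩
  · intro q hq
    rw [mem_filter] at hq
    exact union_sdiff_of_subset hq.2.1
  · intro t ht
    rw [mem_filter] at ht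
    exact union_sdiff_cancel_left ht.2
  · intro q hq
    rw [mem_filter] at hq
    rw [union_sdiff_of_subset hq.2.1]

/-- THE PAIR BOUND -/
theorem pair_bound (hB : OddCover B) {s : Finset (Fin 13)} (hs : s ⊆ R10) (h2 : s.card = 2) :
    cnt (zR B) s + (∑ t ∈ (R10.powersetCard 2).filter (Disjoint s), mj B (s ∪ t)) +
      (P1 B s + (cnt (zT11 B) s + cnt (zT12 B) s) / 2) ≤ Lam B s + 4 := by
  have h10 : (10 : Fin 13) ∉ s := notMem_R10 (by decide) hs
  have h11 : (11 : Fin 13) ∉ s := notMem_R10 (by decide) hs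
  have h12 : (12 : Fin 13) ∉ s := notMem_R10 (by decide) hs
  have hA := sum_ex10 hB hs h2
  have hI : ∑ t ∈ (R10.powersetCard 2).filter (Disjoint s), mj B (s ∪ t) ≤
      ∑ q ∈ quads.filter (fun q => s ⊆ q ∧ q ⊆ R10), ex B q := by
    rw [sum_inside hs h2]
    refine sum_le_sum fun t ht => ?_
    rw [mem_filter, mem_powersetCard] at ht
    exact mj_le (union_subset hs ht.1.1)
  have hL : Lam B s = P1 B s + (∑ w ∈ R10 \ s, ex B (insert 10 (insert w s)) +
      ∑ q ∈ quads.filter (fun q => s ⊆ q ∧ q ⊆ R10), ex B q) := by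
    unfold Lam LamW P1
    rw [← sum_filter_add_sum_filter_not (quads.filter fun q => s ⊆ q)
      (fun q => 12 ∈ q ∨ 11 ∈ q)]
    congr 1
    · rw [filter_filter]
    · rw [← sum_filter_add_sum_filter_not _ (fun q => (10 : Fin 13) ∈ q)]
      congr 1
      · refine (sum_bij (fun w _ => insert 10 (insert w s)) ?_ ?_ ?_ (fun _ _ => rfl)).symm
        · intro w hw
          rw [mem_sdiff] at hw
          have hws : insert w s ⊆ R10 := insert_subset hw.1 hs
          have k10 : (10 : Fin 13) ∉ insert w s := notMem_R10 (by decide) hws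
          have k11 : (11 : Fin 13) ∉ insert w s := notMem_R10 (by decide) hws
          have k12 : (12 : Fin 13) ∉ insert w s := notMem_R10 (by decide) hws
          rw [mem_filter, mem_filter, mem_filter, mem_quads, card_insert_of_notMem k10,
            card_insert_of_notMem hw.2, h2]
          refine ⟨⟨⟨rfl, (subset_insert w s).trans (subset_insert 10 _)⟩, ?_⟩,
            mem_insert_self 10 _⟩
          rw [mem_insert, mem_insert (a := (11 : Fin 13)), not_or, not_or, not_or]
          exact ⟨⟨by decide, k12⟩, ⟨by decide, k11⟩⟩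
        · intro a ha b hb hab
          rw [mem_sdiff] at ha hb
          have ka : (10 : Fin 13) ∉ insert a s := notMem_R10 (by decide) (insert_subset ha.1 hs)
          have kb : (10 : Fin 13) ∉ insert b s := notMem_R10 (by decide) (insert_subset hb.1 hs)
          have h4 := congrArg (fun t => t.erase 10) hab
          simp only [erase_insert ka, erase_insert kb] at h4
          have h5 : a ∈ insert b s := h4 ▸ mem_insert_self a s
          rcases mem_insert.1 h5 with h6 | h6
          · exact h6
          · exact absurd h6 ha.2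
        · intro q hq
          rw [mem_filter, mem_filter, mem_filter, mem_quads] at hq
          obtain ⟨⟨⟨hq4, hsq⟩, hno⟩, hq10⟩ := hq
          rw [not_or] at hno
          have hse : s ⊆ q.erase 10 := by
            intro a ha
            rw [mem_erase]
            refine ⟨?_, hsq ha⟩
            rintro rfl
            exact h10 ha
          have h3 : (q.erase 10 \ s).card = 1 := by
            rw [card_sdiff_of_subset hse, card_erase_of_mem hq10, hq4, h2]
          obtain ⟨v, hv⟩ := card_eq_one.1 h3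
          have hv1 : v ∈ q.erase 10 \ s := by rw [hv]; exact mem_singleton_self v
          rw [mem_sdiff, mem_erase] at hv1
          refine ⟨v, ?_, ?_⟩
          · rw [mem_sdiff]
            refine ⟨mem_R10_of hv1.1.1 ?_ ?_, hv1.2⟩
            · rintro rfl
              exact hno.2 hv1.1.2
            · rintro rfl
              exact hno.1 hv1.1.2
          · have h5 : q.erase 10 = insert v s := by
              have h6 : q.erase 10 = (q.erase 10 \ s) ∪ s := (sdiff_union_of_subset hse).symm
              rw [h6, hv]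
              rfl
            show insert 10 (insert v s) = q
            rw [← h5, insert_erase hq10]
      · refine sum_congr ?_ fun _ _ => rfl
        ext q
        rw [mem_filter, mem_filter, mem_filter, mem_filter]
        constructor
        · rintro ⟨⟨⟨h3, h4⟩, h5⟩, h6⟩
          rw [not_or] at h5
          exact ⟨h3, h4, fam_aux h6 h5.2 h5.1⟩
        · rintro ⟨h3, h4, h5⟩
          refine ⟨⟨⟨h3, h4⟩, ?_⟩, notMem_R10 (by decide) h5⟩
          rw [not_or]
          exact ⟨notMem_R10 (by decide) h5, notMem_R10 (by decide) h5⟩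
  rw [hL]
  omega

/-- the pair excess of 10 and a point -/
theorem mm10_eq (hB : OddCover B) {u : Fin 13} (hu : u ∈ R10) :
    19 + 2 * mm B 10 u = cnt (zR B) {u} + cnt (zT11 B) {u} + (cnt (zT12 B) {u} + cnt (zF B) {u}) := by
  have hne : (10 : Fin 13) ≠ u := by
    rintro rfl
    exact absurd (mem_R10.1 hu) (by decide)
  rw [← cnt_insert10 (singleton_subset_iff.2 hu)]
  exact (cnt_pair hB hne).symm

/-- the row of a point -/
theorem row_bound {u : Fin 13} (hu : u ∈ R10) {t : Fin 13 → ℕ}
    (ht : ∀ v ∈ R10, v ≠ u → t v ≤ mm B u v) :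
    ∑ v ∈ R10.erase u, t v + (mm B 12 u + mm B 11 u + mm B 10 u) ≤ MM B u := by
  have h1 : ({u} : Finset (Fin 13))ᶜ = insert 12 (insert 11 (insert 10 (R10.erase u))) := by
    have h : ∀ u ∈ R10, ({u} : Finset (Fin 13))ᶜ =
      insert 12 (insert 11 (insert 10 (R10.erase u))) := by decide
    exact h u hu
  have k10 : (10 : Fin 13) ∉ R10.erase u := fun h => absurd (mem_R10.1 (mem_erase.1 h).2) (by decide)
  have k11 : (11 : Fin 13) ∉ insert 10 (R10.erase u) := by
    rw [mem_insert, not_or]
    exact ⟨by decide, fun h => absurd (mem_R10.1 (mem_erase.1 h).2) (by decide)⟩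
  have k12 : (12 : Fin 13) ∉ insert 11 (insert 10 (R10.erase u)) := by
    rw [mem_insert, not_or, mem_insert, not_or]
    exact ⟨by decide, by decide, fun h => absurd (mem_R10.1 (mem_erase.1 h).2) (by decide)⟩
  unfold MM
  rw [h1, sum_insert k12, sum_insert k11, sum_insert k10, mm_comm B u 12, mm_comm B u 11,
    mm_comm B u 10]
  have h2 : ∑ v ∈ R10.erase u, t v ≤ ∑ v ∈ R10.erase u, mm B u v :=
    sum_le_sum fun v hv => ht v (mem_erase.1 hv).2 (mem_erase.1 hv).1
  omega

end

end Pool.Agent.Helper81.TY
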