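import Pool.Agent.Helper81.TY.Exp8Def

/-!
MP_8ee768_co, project TH-Y': the expansion is linear over xor, so it is checked on the powers of two.
-/

set_option autoImplicit false

namespace Pool.Agent.Helper81.TY

open Finset
open Pool.Agent.Helper89.CV (OddCover ofMask)
open Pool.Agent.Helper97.CV Pool.Agent.Helper79.CV Pool.Agent.Helper33.CV
open Pool.Agent.Helper63.SIMD
open Pool.Agent.Helper33.TY (ind ind_le)

/-- xor-linear -/
structure Lin (f : ℕ → ℕ) : Prop where
  zero : f 0 = 0
  xor : ∀ x y, f (x ^^^ y) = f x ^^^ f y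

theorem Lin.comp {f g : ℕ → ℕ} (hf : Lin f) (hg : Lin g) : Lin (fun x => f (g x)) :=
  ⟨by rw [hg.zero, hf.zero], fun x y => by rw [hg.xor, hf.xor]⟩

theorem lin_id : Lin (fun x => x) := ⟨rfl, fun _ _ => rfl⟩

theorem shl_xor (x y k : ℕ) : (x ^^^ y) <<< k = (x <<< k) ^^^ (y <<< k) := by
  refine Nat.eq_of_testBit_eq fun i => ?_
  rw [Nat.testBit_xor, Nat.testBit_shiftLeft, Nat.testBit_shiftLeft, Nat.testBit_shiftLeft,
    Nat.testBit_xor]
  cases decide (i ≥ k) <;> simp

theorem shr_xor (x y k : ℕ) : (x ^^^ y) >>> k = (x >>> k) ^^^ (y >>> k) := by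
  refine Nat.eq_of_testBit_eq fun i => ?_
  rw [Nat.testBit_xor, Nat.testBit_shiftRight, Nat.testBit_shiftRight, Nat.testBit_shiftRight,
    Nat.testBit_xor]

theorem and_xor (x y m : ℕ) : (x ^^^ y) &&& m = (x &&& m) ^^^ (y &&& m) := by
  refine Nat.eq_of_testBit_eq fun i => ?_
  rw [Nat.testBit_xor, Nat.testBit_and, Nat.testBit_and, Nat.testBit_and, Nat.testBit_xor]
  cases m.testBit i <;> simp

theorem xor4 (a b c d : ℕ) : (a ^^^ b) ^^^ (c ^^^ d) = (a ^^^ c) ^^^ (b ^^^ d) := by
  refine Nat.eq_of_testBit_eq fun i => ?_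
  simp only [Nat.testBit_xor]
  cases a.testBit i <;> cases b.testBit i <;> cases c.testBit i <;> cases d.testBit i <;> rfl

theorem lin_land (m : ℕ) : Lin (fun x => Nat.land x m) :=
  ⟨Nat.zero_and m, fun x y => and_xor x y m⟩

theorem lin_dl (k : ℕ) : Lin (dl k) := by
  refine ⟨?_, fun x y => ?_⟩
  · show 0 ^^^ (0 <<< k) = 0
    rw [Nat.zero_shiftLeft, Nat.xor_self]
  · show (x ^^^ y) ^^^ ((x ^^^ y) <<< k) = (x ^^^ (x <<< k)) ^^^ (y ^^^ (y <<< k))
    rw [shl_xor, xor4]

theorem lin_dr (k : ℕ) : Lin (dr k) := by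
  refine ⟨?_, fun x y => ?_⟩
  · show 0 ^^^ (0 >>> k) = 0
    rw [Nat.zero_shiftRight, Nat.xor_self]
  · show (x ^^^ y) ^^^ ((x ^^^ y) >>> k) = (x ^^^ (x >>> k)) ^^^ (y ^^^ (y >>> k))
    rw [shr_xor, xor4]

theorem lin_mv (k a b : ℕ) : Lin (mv k a b) := by
  refine ⟨?_, fun x y => ?_⟩
  · show (0 &&& a) ^^^ ((0 &&& b) <<< k) = 0
    rw [Nat.zero_and, Nat.zero_and, Nat.zero_shiftLeft, Nat.xor_self]
  · show ((x ^^^ y) &&& a) ^^^ (((x ^^^ y) &&& b) <<< k) =
      ((x &&& a) ^^^ ((x &&& b) <<< k)) ^^^ ((y &&& a) ^^^ ((y &&& b) <<< k))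
    rw [and_xor, and_xor, shl_xor, xor4]

/-- the bits of the image -/
theorem Lin.testBit {f : ℕ → ℕ} (hf : Lin f) {π : ℕ → ℕ} : ∀ {N : ℕ},
    (∀ k < N, f (2 ^ k) = 2 ^ π k) → (∀ a < N, ∀ b < N, π a = π b → a = b) →
    ∀ x < 2 ^ N, ∀ j, (f x).testBit j = true ↔ ∃ k < N, π k = j ∧ x.testBit k = true := by
  intro N
  induction N with
  | zero =>
    intro _ _ x hx j
    have h0 : x = 0 := by
      rw [pow_zero] at hx
      omega
    rw [h0, hf.zero, Nat.zero_testBit]
    constructor
    · exact fun h => absurd h Bool.false_ne_true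
    · rintro ⟨k, hk, -⟩
      exact absurd hk (Nat.not_lt_zero k)
  | succ N ih =>
    intro hπ hinj x hx j
    have ih' := ih (fun k hk => hπ k (by omega)) (fun a ha b hb => hinj a (by omega) b (by omega))
    have hlow : x % 2 ^ N < 2 ^ N := Nat.mod_lt _ (Nat.two_pow_pos N)
    have hb : ∀ k, (x % 2 ^ N).testBit k = (decide (k < N) && x.testBit k) :=
      fun k => Nat.testBit_mod_two_pow x N k
    by_cases hN : x.testBit N = true
    · have hx2 : x = (x % 2 ^ N) ^^^ 2 ^ N := by
        refine Nat.eq_of_testBit_eq fun i => ?_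
        rw [Nat.testBit_xor, hb, Nat.testBit_two_pow]
        rcases lt_trichotomy i N with h | h | h
        · rw [decide_eq_true h, decide_eq_false (by omega)]
          simp
        · rw [h, hN]
          simp
        · have h1 : x < 2 ^ i := lt_of_lt_of_le hx (Nat.pow_le_pow_right (by norm_num) (by omega))
          rw [Nat.testBit_lt_two_pow h1, decide_eq_false (by omega), decide_eq_false (by omega)]
          rfl
      have hfx : (f x).testBit j = ((f (x % 2 ^ N)).testBit j ^^ decide (π N = j)) := by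
        conv_lhs => rw [hx2]
        rw [hf.xor, Nat.testBit_xor, hπ N (by omega), Nat.testBit_two_pow]
      rw [hfx]
      by_cases hj : π N = j
      · have h1 : (f (x % 2 ^ N)).testBit j = false := by
          by_contra h2
          rw [Bool.not_eq_false, ih' _ hlow] at h2
          obtain ⟨k, hk, hk2, -⟩ := h2
          have := hinj k (by omega) N (by omega) (by rw [hk2, hj])
          omega
        rw [h1, decide_eq_true hj]
        constructor
        · intro _
          exact ⟨N, by omega, hj, hN⟩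
        · intro _
          rfl
      · rw [decide_eq_false hj, Bool.xor_false, ih' _ hlow]
        constructor
        · rintro ⟨k, hk, hk2, hk3⟩
          rw [hb, decide_eq_true hk, Bool.true_and] at hk3
          exact ⟨k, by omega, hk2, hk3⟩
        · rintro ⟨k, hk, hk2, hk3⟩
          have h4 : k ≠ N := by
            rintro rfl
            exact hj hk2
          refine ⟨k, by omega, hk2, ?_⟩
          rw [hb, decide_eq_true (by omega), hk3]
          rfl
    · have hx2 : x % 2 ^ N = x := by
        refine Nat.eq_of_testBit_eq fun i => ?_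
        rw [hb]
        rcases lt_trichotomy i N with h | h | h
        · rw [decide_eq_true h, Bool.true_and]
        · rw [h, decide_eq_false (by omega), Bool.false_and]
          rw [Bool.not_eq_true] at hN
          exact hN.symm
        · have h1 : x < 2 ^ i := lt_of_lt_of_le hx (Nat.pow_le_pow_right (by norm_num) (by omega))
          rw [Nat.testBit_lt_two_pow h1, Bool.and_false]
      rw [hx2] at hlow
      rw [ih' x hlow]
      constructor
      · rintro ⟨k, hk, h⟩
        exact ⟨k, by omega, h⟩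
      · rintro ⟨k, hk, hk2, hk3⟩
        have h4 : k ≠ N := by
          rintro rfl
          exact hN hk3
        exact ⟨k, by omega, hk2, hk3⟩

/-- the place of a bit -/
def pi8 (k : ℕ) : ℕ := 8 * (L 10 4).getD (k % 210) 0 + k / 210

theorem lin_exp8 : Lin exp8 := by
  unfold exp8
  repeat' first
    | exact lin_id
    | exact lin_land _
    | exact lin_dl _
    | exact lin_dr _
    | exact lin_mv _ _ _
    | refine Lin.comp (lin_land _) ?_
    | refine Lin.comp (lin_dl _) ?_
    | refine Lin.comp (lin_dr _) ?_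
    | refine Lin.comp (lin_mv _ _ _) ?_

set_option exponentiation.threshold 20000 in
set_option maxRecDepth 20000 in
theorem exp8_basis : (List.range 1680).all (fun k => Nat.beq (exp8 (2 ^ k)) (2 ^ pi8 k)) = true := by
  decide +kernel

end Pool.Agent.Helper81.TY
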