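import Pool.Agent.Helper81.TY.Comb

/-!
MP_8ee768_co, project TH-Y': THE LANE KILL. Frame: pair 12, 11, third point 10, ten outside points.

`Q0`, `Qh` = lower and upper half of the pair word. `U` = byte word of the quads of the link of 10
inside the ten points.
-/

set_option autoImplicit false

namespace Pool.Agent.Helper81.TY

open Finset
open Pool.Agent.Helper89.CV (OddCover ofMask)
open Pool.Agent.Helper97.CV Pool.Agent.Helper79.CV Pool.Agent.Helper33.CV
open Pool.Agent.Helper63.SIMD
open Pool.Agent.Helper33.TY (ind P1 PW qf corr cC pk_mul_cC pk_shiftRight sum_map_le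
  card_ofMask_add_eq ofMask_add_of_disjoint)

/-- multiplication and shift -/
def cor (C W : ℕ) : ℕ := Nat.shiftRight (Nat.mul W C) 7168

/-- quads in exactly one of the links of 12, 11 -/
def zV (Q0 : ℕ) : ℕ := Nat.xor (Nat.land Q0 k1_4) (Nat.land (Nat.shiftRight Q0 1) k1_4)

/-- quads in both links -/
def zB (Q0 : ℕ) : ℕ := Nat.land (Nat.land Q0 k1_4) (Nat.land (Nat.shiftRight Q0 1) k1_4)

/-- triples of the blocks with 10 and one of 12, 11 -/
def zTT (Qh : ℕ) : ℕ := Nat.add (Nat.land Qh k1_3) (Nat.land (Nat.shiftRight Qh 1) k1_3)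

/-- known part of the pair excesses (plus 4) -/
def zP (Q0 Qh : ℕ) : ℕ :=
  Nat.add (Nat.add (Nat.land Q0 k255_2) (Nat.land (cor kC2 (zB Q0)) k255_2))
    (Nat.land (Nat.shiftRight (Nat.land (cor kC1 (zTT Qh)) k255_2) 1) k127_2)

/-- degrees of a point in the known blocks through 10 and one of 12, 11 -/
def zC (Qh : ℕ) : ℕ :=
  Nat.add (Nat.land (cor kC2 (zTT Qh)) k255_1) (Nat.land (cor kC1 (Nat.land Qh k1_2)) k255_1)

/-- known part of the rows -/
def zA (Q0 C : ℕ) : ℕ := Nat.add (Nat.add (Nat.mul 2 (Nat.land Q0 k63_1)) C) k111_1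

/-- the flags of the points -/
def zG (Q0 : ℕ) : ℕ := Nat.land (Nat.shiftRight Q0 6) k1_1

/-- pair excesses of a lane -/
def lf (V U : ℕ) : ℕ := Nat.land (cor kC2 (Nat.add U (Nat.land U V))) k255_2

/-- thresholds -/
def lt (f P2 P5 P8 : ℕ) : ℕ :=
  Nat.add (Nat.add (Nat.land (Nat.shiftRight (Nat.add f P2) 7) k1_2)
    (Nat.land (Nat.shiftRight (Nat.add f P5) 7) k1_2))
    (Nat.land (Nat.shiftRight (Nat.add f P8) 7) k1_2)

/-- degrees of the points in the lane -/
def lN (U : ℕ) : ℕ := Nat.land (cor kC3 U) k255_1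

/-- rows -/
def lX (t N A : ℕ) : ℕ :=
  Nat.land (Nat.shiftRight (Nat.add (Nat.land (cor kC1d t) k255_1) (Nat.add N A)) 1) k62_1

/-- flags of a lane: `A' = C + 107`, `kN` = mask of the points whose edge to 10 counts -/
def lF (kN N A' G : ℕ) : ℕ := Nat.lor (Nat.land (Nat.shiftRight (Nat.add N A') 7) kN) G

/-- lower bounds: `b` or 8 -/
def lL (b8 bk F : ℕ) : ℕ := Nat.add (Nat.mul b8 F) bk

/-- maximum with the lower bounds -/
def lr (X Lw : ℕ) : ℕ :=
  (fun Z => (fun d => Nat.add Lw (Nat.land Z (Nat.sub d (Nat.shiftRight d 7)))) (Nat.land Z k128_1))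
    (Nat.add X (Nat.sub k128_1 Lw))

/-- the kill test of a lane -/
def laneK (T V P2 P5 P8 A A' G kN b8 bk U : ℕ) : Bool :=
  (fun N => Nat.ble T (Nat.mod (lr (lX (lt (lf V U) P2 P5 P8) N A) (lL b8 bk (lF kN N A' G))) 255))
    (lN U)

/-! ## correlations -/

theorem corr_field {g : Finset (Fin 13) → ℕ} {i j : ℕ}
    (hg : ∀ s ⊆ R10, s.card ≠ i + j → g s = 0) {s : Finset (Fin 13)} (hs : s ⊆ R10)
    (hc : s.card = i) :
    ((L 10 j).map fun c => if mk s + c < 1024 then g (ofMask (mk s + c)) else 0).sum =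
      ∑ t ∈ (R10.powersetCard j).filter (Disjoint s), g (s ∪ t) := by
  rw [sum_filter]
  have h4 := sum_L10 j (fun t => if Disjoint s t then g (s ∪ t) else 0)
  refine Eq.trans ?_ h4
  refine congrArg List.sum ?_
  refine List.map_congr_left fun c hcL => ?_
  have hcL' := (mem_L (n := 10) (by norm_num)).1 hcL
  have hc1 : c < 1024 := hcL'.1
  have hs1 := mk_lt_R10.2 hs
  have h13 : mk s + c < 2 ^ 13 := by
    rw [show (2 : ℕ) ^ 13 = 8192 by norm_num]
    omega
  have h5 := card_ofMask_add_eq h13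
  rw [ofMask_mk, hc, hcL'.2] at h5
  by_cases hd : Disjoint s (ofMask c)
  · rw [if_pos hd]
    have h6 := ofMask_add_of_disjoint h13 (by rw [ofMask_mk]; exact hd)
    rw [ofMask_mk] at h6
    have h7 : mk s + c < 1024 := by
      rw [← mk_ofMask h13, h6, mk_lt_R10]
      exact union_subset hs (ofMask_subset_R10 hc1)
    rw [if_pos h7, h6]
  · rw [if_neg hd]
    split_ifs with hi
    · exact hg _ (ofMask_subset_R10 hi) fun h8 => hd (h5.1 h8)
    · rfl

/-- two products in one shift -/
theorem corr_two {g h : Finset (Fin 13) → ℕ} {i j1 j2 K : ℕ} {b1 b2 : ℕ}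
    (hg : ∀ s ⊆ R10, s.card ≠ i + j1 → g s = 0) (hgb : ∀ s ⊆ R10, g s ≤ b1)
    (hh : ∀ s ⊆ R10, s.card ≠ i + j2 → h s = 0) (hhb : ∀ s ⊆ R10, h s ≤ b2)
    (hK1 : ∀ c ∈ L 10 j1, c ≤ K) (hK2 : ∀ c ∈ L 10 j2, c ≤ K)
    (hlen : Nat.choose 10 j1 * b1 + Nat.choose 10 j2 * b2 < 256) :
    (bw g * cC K (L 10 j1) + bw h * cC K (L 10 j2)) >>> (8 * K) &&& lay 255 i =
      bw fun s => if s.card = i then
        ∑ t ∈ (R10.powersetCard j1).filter (Disjoint s), g (s ∪ t) +
        ∑ t ∈ (R10.powersetCard j2).filter (Disjoint s), h (s ∪ t) else 0 := by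
  have h1 : ∀ g : Finset (Fin 13) → ℕ,
      bw g = pk 8 1024 (fun m => if m < 1024 then g (ofMask m) else 0) := fun g =>
    pk_congr fun m hm => (if_pos hm).symm
  have hb1 : ∀ g : Finset (Fin 13) → ℕ, ∀ b, (∀ s ⊆ R10, g s ≤ b) → ∀ i,
      (if i < 1024 then g (ofMask i) else 0) ≤ b := by
    intro g b hgb i
    split_ifs with hi
    · exact hgb _ (ofMask_subset_R10 hi)
    · exact Nat.zero_le _
  have hl1 : (L 10 j1).length * b1 + (L 10 j2).length * b2 < 256 := by
    rw [length_L, length_L]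
    exact hlen
  have hlt : ∀ m : ℕ, ((L 10 j1).map fun c => if m + c < 1024 then g (ofMask (m + c)) else 0).sum +
      ((L 10 j2).map fun c => if m + c < 1024 then h (ofMask (m + c)) else 0).sum < 256 := by
    intro m
    have k1 := sum_map_le (L 10 j1) (fun c => if m + c < 1024 then g (ofMask (m + c)) else 0)
      (b := b1) fun c _ => hb1 g b1 hgb (m + c)
    have k2 := sum_map_le (L 10 j2) (fun c => if m + c < 1024 then h (ofMask (m + c)) else 0)
      (b := b2) fun c _ => hb1 h b2 hhb (m + c)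
    omega
  rw [h1 g, h1 h, pk_mul_cC _ (fun i hi => if_neg (by omega)),
    pk_mul_cC _ (fun i hi => if_neg (by omega)), pk_add, Nat.add_comm 1024 K, pk_shiftRight]
  · have h3 : pk 8 1024 (fun i => ((L 10 j1).map fun c => if K - c ≤ i + K then
          (if i + K - (K - c) < 1024 then g (ofMask (i + K - (K - c))) else 0) else 0).sum +
        ((L 10 j2).map fun c => if K - c ≤ i + K then
          (if i + K - (K - c) < 1024 then h (ofMask (i + K - (K - c))) else 0) else 0).sum) =
        bw (fun s => ((L 10 j1).map fun c =>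
          if mk s + c < 1024 then g (ofMask (mk s + c)) else 0).sum +
          ((L 10 j2).map fun c =>
          if mk s + c < 1024 then h (ofMask (mk s + c)) else 0).sum) := by
      refine pk_congr fun m hm => ?_
      have e : mk (ofMask m) = m := mk_ofMask (lt_trans hm (by norm_num))
      simp only [e]
      congr 1
      · refine congrArg List.sum (List.map_congr_left fun c hc => ?_)
        have := hK1 c hc
        rw [if_pos (by omega), show m + K - (K - c) = m + c by omega]
      · refine congrArg List.sum (List.map_congr_left fun c hc => ?_)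
        have := hK2 c hc
        rw [if_pos (by omega), show m + K - (K - c) = m + c by omega]
    rw [h3, bw_land_lay (fun s _ => hlt (mk s))]
    refine bw_congr fun s hs => ?_
    by_cases hc : s.card = i
    · rw [if_pos hc, if_pos hc, corr_field hg hs hc, corr_field hh hs hc]
    · rw [if_neg hc, if_neg hc]
  · intro i _
    refine lt_of_le_of_lt (Nat.add_le_add
      (sum_map_le _ _ (b := b1) fun c _ => ?_) (sum_map_le _ _ (b := b2) fun c _ => ?_)) hl1
    · split_ifs with h5 h6
      · exact hgb _ (ofMask_subset_R10 h6)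
      · exact Nat.zero_le _
      · exact Nat.zero_le _
    · split_ifs with h5 h6
      · exact hhb _ (ofMask_subset_R10 h6)
      · exact Nat.zero_le _
      · exact Nat.zero_le _

theorem cor_eq (C W : ℕ) : cor C W = corr 896 C W := rfl

end Pool.Agent.Helper81.TY
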