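import Pool.Agent.Helper81.TY.Exp8

/-!
MP_8ee768_co, project TH-Y': the lanes of the expanded group.
-/

set_option autoImplicit false

namespace Pool.Agent.Helper81.TY

open Finset
open Pool.Agent.Helper89.CV (OddCover ofMask)
open Pool.Agent.Helper97.CV Pool.Agent.Helper79.CV Pool.Agent.Helper33.CV
open Pool.Agent.Helper63.SIMD
open Pool.Agent.Helper33.TY (ind ind_le)

theorem length_L104 : (L 10 4).length = 210 := by
  rw [length_L]
  decide

theorem pi8_lt (k : ℕ) (hk : k < 1680) : k / 210 < 8 := by omega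

theorem pi8_inj : ∀ a < 1680, ∀ b < 1680, pi8 a = pi8 b → a = b := by
  intro a ha b hb h
  unfold pi8 at h
  have h1 : a / 210 = b / 210 := by omega
  have h2 : (L 10 4).getD (a % 210) 0 = (L 10 4).getD (b % 210) 0 := by omega
  have la : a % 210 < (L 10 4).length := by
    rw [length_L104]
    exact Nat.mod_lt a (by norm_num)
  have lb : b % 210 < (L 10 4).length := by
    rw [length_L104]
    exact Nat.mod_lt b (by norm_num)
  rw [List.getD_eq_getElem _ _ la, List.getD_eq_getElem _ _ lb] at h2
  have h3 := (List.Nodup.getElem_inj_iff (nodup_L 10 4)).1 h2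
  omega

theorem exp8_pow : ∀ k < 1680, exp8 (2 ^ k) = 2 ^ pi8 k := by
  intro k hk
  have h := List.all_eq_true.1 exp8_basis k (List.mem_range.2 hk)
  exact Nat.eq_of_beq_eq_true h

/-- the word of a lane -/
theorem lane_word {x : ℕ} (hx : x < 2 ^ 1680) {i : ℕ} (hi : i < 8)
    {B : Finset (Finset (Fin 13))} (hB : OddCover B)
    (hR : x >>> (210 * i) % 2 ^ 210 = enc 10 4 (link B 10)) :
    Nat.land (Nat.shiftRight (exp8 x) i) k1_4 = bw (ind (zR B)) := by
  show (exp8 x) >>> i &&& k1_4 = _
  have hk : ∀ s ⊆ R10, (if s.card = 4 then 1 else 0 : ℕ) < 256 := by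
    intro s _
    split_ifs <;> omega
  have hr : ∀ s ⊆ R10, ind (zR B) s < 256 := by
    intro s _
    have := ind_le (zR B) s
    omega
  rw [k1_4_eq, lay_apply]
  refine Nat.eq_of_testBit_eq fun t => ?_
  rw [Nat.testBit_and, Nat.testBit_shiftRight]
  by_cases ht : t < 8192
  swap
  · rw [testBit_bw10_ge hk (by omega), testBit_bw10_ge hr (by omega), Bool.and_false]
  rw [testBit_bw10 hk ht, testBit_bw10 hr ht]
  have hm : t / 8 < 1024 := by omega
  generalize hmd : t / 8 = m at hm
  have hs := ofMask_subset_R10 hm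
  by_cases h8 : t % 8 = 0
  swap
  · have h1 : ∀ v ≤ 1, Nat.testBit v (t % 8) = false := by
      intro v hv
      refine Nat.testBit_lt_two_pow (lt_of_le_of_lt hv ?_)
      calc (1 : ℕ) < 2 ^ 1 := by norm_num
        _ ≤ 2 ^ (t % 8) := Nat.pow_le_pow_right (by norm_num) (by omega)
    rw [h1 _ (ind_le _ _), h1 _ (by split_ifs <;> omega), Bool.and_false]
  rw [h8]
  by_cases h4 : (ofMask m).card = 4
  swap
  · rw [if_neg h4, (fam_zR hB).ind_zero h4, Nat.zero_testBit, Bool.and_false]
  rw [if_pos h4, ind_zR hs]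
  have e1 : Nat.testBit 1 0 = true := rfl
  rw [e1, Bool.and_true]
  -- the rank
  have hmL : m ∈ L 10 4 := by
    rw [mem_L (by norm_num)]
    exact ⟨hm, h4⟩
  obtain ⟨j, hj, hjm⟩ := List.getElem_of_mem hmL
  have hj210 : j < 210 := by
    rw [length_L104] at hj
    exact hj
  have hbit : (exp8 x).testBit (i + t) = x.testBit (210 * i + j) := by
    rw [Bool.eq_iff_iff, lin_exp8.testBit exp8_pow pi8_inj x hx]
    constructor
    · rintro ⟨k, hk, hk2, hk3⟩
      have h5 : pi8 (210 * i + j) = i + t := by
        unfold pi8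
        have h6 : (210 * i + j) % 210 = j := by omega
        have h7 : (210 * i + j) / 210 = i := by omega
        rw [h6, h7, List.getD_eq_getElem _ _ hj, hjm]
        omega
      have h8 := pi8_inj k hk (210 * i + j) (by omega) (by rw [hk2, h5])
      rw [← h8]
      exact hk3
    · intro h
      refine ⟨210 * i + j, by omega, ?_, h⟩
      unfold pi8
      have h6 : (210 * i + j) % 210 = j := by omega
      have h7 : (210 * i + j) / 210 = i := by omega
      rw [h6, h7, List.getD_eq_getElem _ _ hj, hjm]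
      omega
  rw [hbit]
  have h5 : (x >>> (210 * i) % 2 ^ 210).testBit j = x.testBit (210 * i + j) := by
    rw [Nat.testBit_mod_two_pow, decide_eq_true hj210, Bool.true_and, Nat.testBit_shiftRight]
  rw [← h5, hR, testBit_enc _ hj, hjm]
  unfold li
  by_cases h6 : ofMask m ∈ link B 10
  · rw [if_pos h6, decide_eq_true h6]
    rfl
  · rw [if_neg h6, decide_eq_false h6]
    rfl

end Pool.Agent.Helper81.TY
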