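import Pool.Agent.Helper81.TY.Const
import Pool.Agent.Helper33.TY.PWord
import Pool.Agent.Helper97.CV.Kill10Sound

/-!
MP_8ee768_co, project TH-Y': the two halves of a byte word of the eleven points; shifts of fields.
-/

set_option autoImplicit false

namespace Pool.Agent.Helper81.TY

open Finset
open Pool.Agent.Helper89.CV (OddCover ofMask)
open Pool.Agent.Helper97.CV Pool.Agent.Helper79.CV Pool.Agent.Helper33.CV
open Pool.Agent.Helper63.SIMD
open Pool.Agent.Helper33.TY (corr cC corr_pk pk_append lay8 land_255 ind)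

theorem ofMask_add_1024 {m : ℕ} (hm : m < 1024) : ofMask (m + 1024) = insert 10 (ofMask m) := by
  have h := ofMask_add (m := m) 10 (by
    show m < 2 ^ 10
    norm_num
    exact hm)
  have e : (2 : ℕ) ^ (10 : Fin 13).val = 1024 := by
    show (2 : ℕ) ^ 10 = 1024
    norm_num
  rw [e] at h
  exact h

theorem e8192 : 8 * 1024 = 8192 := rfl

/-- splitting at the point 10 -/
theorem bw11_split (g : Finset (Fin 13) → ℕ) :
    Pool.Agent.Helper33.TY.bw g = bw g + 2 ^ 8192 * bw (fun s => g (insert 10 s)) := by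
  have h := pk_append (W := 8) (M := 1024) (N := 1024) (fun m => g (ofMask m))
  rw [e8192] at h
  have h2 : pk 8 1024 (fun i => (fun m => g (ofMask m)) (i + 1024)) =
      bw (fun s => g (insert 10 s)) := by
    refine pk_congr fun i hi => ?_
    show g (ofMask (i + 1024)) = g (insert 10 (ofMask i))
    rw [ofMask_add_1024 hi]
  rw [h2] at h
  exact h

/-- the lower half -/
theorem bw11_low {g : Finset (Fin 13) → ℕ} (hg : ∀ s ⊆ R10, g s < 256) :
    Nat.mod (Pool.Agent.Helper33.TY.bw g) (2 ^ 8192) = bw g := by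
  rw [show Nat.mod (Pool.Agent.Helper33.TY.bw g) (2 ^ 8192) =
    Pool.Agent.Helper33.TY.bw g % 2 ^ 8192 from rfl, bw11_split, Nat.add_mul_mod_self_left,
    Nat.mod_eq_of_lt (bw_lt hg)]

/-- the upper half -/
theorem bw11_high {g : Finset (Fin 13) → ℕ} (hg : ∀ s ⊆ R10, g s < 256) :
    Nat.shiftRight (Pool.Agent.Helper33.TY.bw g) 8192 = bw (fun s => g (insert 10 s)) := by
  rw [show Nat.shiftRight (Pool.Agent.Helper33.TY.bw g) 8192 =
    Pool.Agent.Helper33.TY.bw g >>> 8192 from rfl, bw11_split, Nat.shiftRight_eq_div_pow, Nat.add_mul_div_left _ _ (Nat.two_pow_pos _),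
    Nat.div_eq_of_lt (bw_lt hg), Nat.zero_add]

/-- shift of all fields and masking with a layer -/
theorem bw_shr_lay {g : Finset (Fin 13) → ℕ} (hg : ∀ s ⊆ R10, g s < 256) {k v : ℕ} (hk : k ≤ 8)
    (hv : v < 2 ^ (8 - k)) (i : ℕ) :
    bw g >>> k &&& lay v i = bw fun s => if s.card = i then (g s / 2 ^ k) &&& v else 0 := by
  have hp : 2 ^ (8 - k) ≤ 2 ^ 8 := Nat.pow_le_pow_right (by norm_num) (by omega)
  have hv8 : v < 2 ^ 8 := lt_of_lt_of_le hv hp
  have hl : lay v i = pk 8 1024 (fun _ => 2 ^ (8 - k) - 1) &&& lay v i := by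
    unfold lay bw
    rw [pk_land (fun _ _ => by have := Nat.two_pow_pos (8 - k); omega) (fun m _ => by
      show (if (ofMask m).card = i then v else 0) < 2 ^ 8
      split_ifs <;> omega)]
    refine pk_congr fun m _ => ?_
    show (if (ofMask m).card = i then v else 0) = (2 ^ (8 - k) - 1) &&&
      (if (ofMask m).card = i then v else 0)
    rw [Nat.and_comm, Nat.and_two_pow_sub_one_eq_mod, Nat.mod_eq_of_lt]
    split_ifs <;> omega
  rw [hl, ← Nat.and_assoc]
  unfold bw
  rw [Pool.Agent.Helper97.CV.KillW.pk_shr_land hk _ (fun m hm => hg _ (ofMask_subset_R10 hm))]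
  unfold lay bw
  rw [pk_land (fun m hm => lt_of_le_of_lt (Nat.div_le_self _ _) (hg _ (ofMask_subset_R10 hm)))
    (fun m _ => by
      show (if (ofMask m).card = i then v else 0) < 2 ^ 8
      split_ifs <;> omega)]
  refine pk_congr fun m _ => ?_
  show _ &&& (if (ofMask m).card = i then v else 0) =
    if (ofMask m).card = i then (g (ofMask m) / 2 ^ k) &&& v else 0
  split_ifs
  · rfl
  · exact Nat.and_zero _

/-- masking with a layer -/
theorem bw_land_lay' {g : Finset (Fin 13) → ℕ} (hg : ∀ s ⊆ R10, g s < 256) {v : ℕ} (hv : v < 256)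
    (i : ℕ) : bw g &&& lay v i = bw fun s => if s.card = i then g s &&& v else 0 := by
  have h := bw_shr_lay hg (k := 0) (v := v) (by norm_num) (by norm_num; exact hv) i
  rw [Nat.shiftRight_zero] at h
  rw [h]
  refine bw_congr fun s _ => ?_
  rw [pow_zero, Nat.div_one]

theorem bw_xor {g h : Finset (Fin 13) → ℕ} (hg : ∀ s ⊆ R10, g s < 256) (hh : ∀ s ⊆ R10, h s < 256) :
    bw g ^^^ bw h = bw fun s => g s ^^^ h s :=
  pk_xor (fun _ hm => hg _ (ofMask_subset_R10 hm)) (fun _ hm => hh _ (ofMask_subset_R10 hm))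

theorem lay_apply (v i : ℕ) : lay v i = bw fun s => if s.card = i then v else 0 := rfl

/-! ### families on the ten points -/

/-- a family of `k`-subsets of the ten points -/
def Fam10 (k : ℕ) (F : Finset (Finset (Fin 13))) : Prop := ∀ b ∈ F, b ⊆ R10 ∧ b.card = k

/-- counting members containing `s` by their other points -/
theorem sup_count10 {i j : ℕ} {F : Finset (Finset (Fin 13))} (hF : Fam10 (i + j) F)
    {s : Finset (Fin 13)} (hi : s.card = i) :
    ∑ t ∈ (R10.powersetCard j).filter (Disjoint s), ind F (s ∪ t) = cnt F s := by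
  unfold ind cnt
  rw [← card_filter]
  refine card_bij' (fun t _ => s ∪ t) (fun b _ => b \ s) ?_ ?_ ?_ ?_
  · intro t ht
    rw [mem_filter] at ht ⊢
    exact ⟨ht.2, subset_union_left⟩
  · intro b hb
    rw [mem_filter] at hb
    have h1 := hF b hb.1
    rw [mem_filter, mem_filter, mem_powersetCard, union_sdiff_of_subset hb.2]
    refine ⟨⟨⟨sdiff_subset.trans h1.1, ?_⟩, disjoint_sdiff⟩, hb.1⟩
    rw [card_sdiff_of_subset hb.2, h1.2, hi]
    omega
  · intro t ht
    rw [mem_filter, mem_filter] at ht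
    rw [union_sdiff_cancel_left ht.1.2]
  · intro b hb
    rw [mem_filter] at hb
    exact union_sdiff_of_subset hb.2

theorem sum_disj_le {j : ℕ} {s : Finset (Fin 13)} {f : Finset (Fin 13) → ℕ} {b : ℕ}
    (hf : ∀ t, f t ≤ b) :
    ∑ t ∈ (R10.powersetCard j).filter (Disjoint s), f t ≤ Nat.choose 10 j * b := by
  refine (sum_le_sum fun t _ => hf t).trans ?_
  rw [sum_const, smul_eq_mul]
  refine Nat.mul_le_mul_right b ((card_filter_le _ _).trans ?_)
  rw [card_powersetCard, show R10.card = 10 by decide]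

end Pool.Agent.Helper81.TY
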