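import Pool.Agent.Helper81.TY.Lane
import Pool.Agent.Helper81.TY.Exp8Def

/-!
MP_8ee768_co, project TH-Y': the loops over the lanes of a glued type. A piece holds 64 lanes of
210 bits, a group is a piece part of 8 lanes, expanded by `exp8`.

`kf U` = the lane with the word `U` is dead, `ct U c` = the check of a lane which is not dead
(stream `c`; result 0 = failure, otherwise the rest of the stream).
-/

set_option autoImplicit false
set_option exponentiation.threshold 20000

namespace Pool.Agent.Helper81.TY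

/-- salted successor: `k` only serves the hash of the term -/
def sc (_k a : ℕ) : ℕ := Nat.succ a

/-- call by value on numbers -/
def force {α : Type} (k E : ℕ) (f : ℕ → α) : α :=
  @Nat.rec (fun _ => α) (f 0) (fun m _ => f (sc k m)) E

theorem force_eq {α : Type} (k E : ℕ) (f : ℕ → α) : force k E f = f E := by
  cases E <;> rfl

/-- the word of the lane `i` of an expanded group -/
def lw (E i : ℕ) : ℕ := Nat.land (Nat.shiftRight E i) k1_4

/-- all lanes `i < n` of a group are dead -/
def kall (kf : ℕ → Bool) (E n : ℕ) : Bool :=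
  @Nat.rec (fun _ => Bool) true (fun i ih => @Bool.rec (fun _ => Bool) false ih (kf (lw E i))) n

/-- the last `m` of the `n` lanes of a group, one after the other -/
def slow (kf : ℕ → Bool) (ct : ℕ → ℕ → ℕ) (E n m : ℕ) : ℕ → ℕ :=
  @Nat.rec (fun _ => ℕ → ℕ) (fun c => c) (fun i ih c =>
    (fun U => @Bool.rec (fun _ => ℕ)
      (@Nat.rec (fun _ => ℕ) 0 (fun r _ => ih (sc c r)) (ct U c))
      (ih c) (kf U)) (lw E (Nat.sub n (Nat.succ i)))) m

/-- the size of a block before `i` further blocks -/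
def sz (s l i : ℕ) : ℕ := @Nat.rec (fun _ => ℕ) l (fun _ _ => s) i

/-- mask of a group -/
def m1680 : ℕ := 0xffffffffffffffffffffffffffffffffffffffffffffffffffffffffffffffffffffffffffffffffffffffffffffffffffffffffffffffffffffffffffffffffffffffffffffffffffffffffffffffffffffffffffffffffffffffffffffffffffffffffffffffffffffffffffffffffffffffffffffffffffffffffffffffffffffffffffffffffffffffffffffffffffffffffffffffffffffffffffffffffffffffffffffffffffffffffffffffffffffffffffffffffffffffffffffffffffffffffffffffffffffffffffffffffffff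

theorem m1680_eq : m1680 = 2 ^ 1680 - 1 := by decide +kernel

/-- the last `m` of the `G` groups of a piece `W` with `n` lanes -/
def grps (kf : ℕ → Bool) (ct : ℕ → ℕ → ℕ) (W n G m : ℕ) : ℕ → ℕ :=
  @Nat.rec (fun _ => ℕ → ℕ) (fun c => c) (fun i ih c =>
    (fun E k => @Bool.rec (fun _ => ℕ)
      (@Nat.rec (fun _ => ℕ) 0 (fun r _ => ih (sc c r)) (slow kf ct E k k c))
      (ih c) (kall kf E k))
      (exp8 (Nat.land (Nat.shiftRight W (Nat.mul 1680 (Nat.sub G (Nat.succ i)))) m1680))
      (sz 8 (Nat.sub n (Nat.mul 8 (Nat.sub G 1))) i)) m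

/-- a piece -/
def pieceRun (kf : ℕ → Bool) (ct : ℕ → ℕ → ℕ) (W n c : ℕ) : ℕ :=
  grps kf ct W n (Nat.div (Nat.add n 7) 8) (Nat.div (Nat.add n 7) 8) c

/-- the last `m` of the `G` pieces -/
def pieces (kf : ℕ → Bool) (ct : ℕ → ℕ → ℕ) (piece : ℕ → ℕ) (P N G m : ℕ) : ℕ → ℕ :=
  @Nat.rec (fun _ => ℕ → ℕ) (fun c => c) (fun i ih c =>
    @Nat.rec (fun _ => ℕ) 0 (fun r _ => ih (sc c r))
      (pieceRun kf ct (piece (Nat.add P (Nat.sub G (Nat.succ i))))
        (sz 64 (Nat.sub N (Nat.mul 64 (Nat.sub G 1))) i) c)) m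

/-- all lanes of a type: `N` lanes, first piece `P` -/
def rowRun (kf : ℕ → Bool) (ct : ℕ → ℕ → ℕ) (piece : ℕ → ℕ) (P N c : ℕ) : ℕ :=
  pieces kf ct piece P N (Nat.div (Nat.add N 63) 64) (Nat.div (Nat.add N 63) 64) c

/-! ## soundness of the loops -/

/-- the lane is dead or was checked -/
def Good (kf : ℕ → Bool) (ct : ℕ → ℕ → ℕ) (U : ℕ) : Prop := kf U = true ∨ ∃ c, ct U c ≠ 0

theorem kall_true {kf : ℕ → Bool} {E : ℕ} : ∀ {n : ℕ}, kall kf E n = true →
    ∀ i < n, kf (lw E i) = true := by
  intro n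
  induction n with
  | zero => intro _ i hi; omega
  | succ n ih =>
    intro h i hi
    have h1 : kall kf E (n + 1) =
        @Bool.rec (fun _ => Bool) false (kall kf E n) (kf (lw E n)) := rfl
    rw [h1] at h
    by_cases h2 : kf (lw E n) = true
    · rw [h2] at h
      rcases Nat.lt_succ_iff_lt_or_eq.1 hi with h3 | h3
      · exact ih h i h3
      · rw [h3]
        exact h2
    · rw [Bool.not_eq_true] at h2
      rw [h2] at h
      exact absurd h Bool.false_ne_true

theorem slow_ne {kf : ℕ → Bool} {ct : ℕ → ℕ → ℕ} {E n : ℕ} : ∀ {m c : ℕ},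
    slow kf ct E n m c ≠ 0 → ∀ j, n - m ≤ j → j < n → Good kf ct (lw E j) := by
  intro m
  induction m with
  | zero => intro c _ j h1 h2; omega
  | succ m ih =>
    intro c h j h1 h2
    have e : slow kf ct E n (m + 1) c = @Bool.rec (fun _ => ℕ)
      (@Nat.rec (fun _ => ℕ) 0 (fun r _ => slow kf ct E n m (sc c r)) (ct (lw E (n - (m + 1))) c))
      (slow kf ct E n m c) (kf (lw E (n - (m + 1)))) := rfl
    rw [e] at h
    by_cases h3 : kf (lw E (n - (m + 1))) = true
    · rw [h3] at h
      by_cases h4 : n - m ≤ j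
      · exact ih h j h4 h2
      · have h5 : j = n - (m + 1) := by omega
        rw [h5]
        exact Or.inl h3
    · rw [Bool.not_eq_true] at h3
      rw [h3] at h
      have h6 : ct (lw E (n - (m + 1))) c ≠ 0 := by
        intro h7
        apply h
        show @Nat.rec (fun _ => ℕ) 0 (fun r _ => slow kf ct E n m (sc c r))
          (ct (lw E (n - (m + 1))) c) = 0
        rw [h7]
        rfl
      by_cases h4 : n - m ≤ j
      · obtain ⟨r, hr⟩ := Nat.exists_eq_succ_of_ne_zero h6
        refine ih (c := sc c r) ?_ j h4 h2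
        intro h8
        apply h
        show @Nat.rec (fun _ => ℕ) 0 (fun r _ => slow kf ct E n m (sc c r))
          (ct (lw E (n - (m + 1))) c) = 0
        rw [hr]
        exact h8
      · have h5 : j = n - (m + 1) := by omega
        rw [h5]
        exact Or.inr ⟨c, h6⟩

theorem sz_zero (s l : ℕ) : sz s l 0 = l := rfl

theorem sz_succ (s l i : ℕ) : sz s l (i + 1) = s := rfl

/-- the group `g` of the piece `W` -/
def grpW (W g : ℕ) : ℕ := Nat.land (Nat.shiftRight W (Nat.mul 1680 g)) m1680

theorem grps_ne {kf : ℕ → Bool} {ct : ℕ → ℕ → ℕ} {W n G : ℕ} : ∀ {m c : ℕ}, m ≤ G →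
    grps kf ct W n G m c ≠ 0 → ∀ g, G - m ≤ g → g < G →
      ∀ j < sz 8 (n - 8 * (G - 1)) (G - 1 - g), Good kf ct (lw (exp8 (grpW W g)) j) := by
  intro m
  induction m with
  | zero => intro c _ _ g h1 h2; omega
  | succ m ih =>
    intro c hm h g h1 h2 j hj
    have e : grps kf ct W n G (m + 1) c = @Bool.rec (fun _ => ℕ)
      (@Nat.rec (fun _ => ℕ) 0 (fun r _ => grps kf ct W n G m (sc c r))
        (slow kf ct (exp8 (grpW W (G - (m + 1)))) (sz 8 (n - 8 * (G - 1)) m)
          (sz 8 (n - 8 * (G - 1)) m) c))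
      (grps kf ct W n G m c)
      (kall kf (exp8 (grpW W (G - (m + 1)))) (sz 8 (n - 8 * (G - 1)) m)) := rfl
    rw [e] at h
    by_cases h3 : kall kf (exp8 (grpW W (G - (m + 1)))) (sz 8 (n - 8 * (G - 1)) m) = true
    · rw [h3] at h
      by_cases h4 : G - m ≤ g
      · exact ih (by omega) h g h4 h2 j hj
      · have h5 : g = G - (m + 1) := by omega
        have h6 : G - 1 - g = m := by omega
        rw [h6] at hj
        rw [h5]
        exact Or.inl (kall_true h3 j hj)
    · rw [Bool.not_eq_true] at h3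
      rw [h3] at h
      have h6 : slow kf ct (exp8 (grpW W (G - (m + 1)))) (sz 8 (n - 8 * (G - 1)) m)
          (sz 8 (n - 8 * (G - 1)) m) c ≠ 0 := by
        intro h7
        apply h
        show @Nat.rec (fun _ => ℕ) 0 (fun r _ => grps kf ct W n G m (sc c r)) _ = 0
        rw [h7]
        rfl
      by_cases h4 : G - m ≤ g
      · obtain ⟨r, hr⟩ := Nat.exists_eq_succ_of_ne_zero h6
        refine ih (c := sc c r) (by omega) ?_ g h4 h2 j hj
        intro h8
        apply h
        show @Nat.rec (fun _ => ℕ) 0 (fun r _ => grps kf ct W n G m (sc c r)) _ = 0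
        rw [hr]
        exact h8
      · have h5 : g = G - (m + 1) := by omega
        have h7 : G - 1 - g = m := by omega
        rw [h7] at hj
        rw [h5]
        exact slow_ne h6 j (by omega) hj

/-- index form -/
theorem block_ix {n s G : ℕ} (hs : 0 < s) (hG : G = (n + (s - 1)) / s) {k : ℕ} (hk : k < n) :
    k / s < G ∧ k % s < sz s (n - s * (G - 1)) (G - 1 - k / s) := by
  have h3 := Nat.mod_lt k hs
  have h5 := Nat.div_add_mod k s
  have h1 : k / s < G := by
    rw [hG, Nat.lt_iff_add_one_le, Nat.le_div_iff_mul_le hs, Nat.add_mul, Nat.one_mul,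
      Nat.mul_comm (k / s) s]
    generalize s * (k / s) = q at h5
    omega
  refine ⟨h1, ?_⟩
  clear hG
  generalize hq : k / s = q at h1 h5
  rcases hc : G - 1 - q with _ | i
  · rw [sz_zero]
    have h4 : G - 1 = q := by omega
    rw [h4]
    generalize s * q = r at h5
    omega
  · rw [sz_succ]
    exact h3

theorem pieceRun_ne {kf : ℕ → Bool} {ct : ℕ → ℕ → ℕ} {W n c : ℕ}
    (h : pieceRun kf ct W n c ≠ 0) : ∀ k < n, Good kf ct (lw (exp8 (grpW W (k / 8))) (k % 8)) := by
  intro k hk
  obtain ⟨h1, h2⟩ := block_ix (s := 8) (n := n) (G := (n + 7) / 8) (by norm_num) rfl hk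
  exact grps_ne (m := (n + 7) / 8) (G := (n + 7) / 8) le_rfl h (k / 8) (by omega) h1 (k % 8) h2

theorem pieces_ne {kf : ℕ → Bool} {ct : ℕ → ℕ → ℕ} {piece : ℕ → ℕ} {P N G : ℕ} : ∀ {m c : ℕ},
    m ≤ G → pieces kf ct piece P N G m c ≠ 0 → ∀ g, G - m ≤ g → g < G →
      ∀ j < sz 64 (N - 64 * (G - 1)) (G - 1 - g),
        Good kf ct (lw (exp8 (grpW (piece (P + g)) (j / 8))) (j % 8)) := by
  intro m
  induction m with
  | zero => intro c _ _ g h1 h2; omega
  | succ m ih =>
    intro c hm h g h1 h2 j hj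
    have e : pieces kf ct piece P N G (m + 1) c =
      @Nat.rec (fun _ => ℕ) 0 (fun r _ => pieces kf ct piece P N G m (sc c r))
      (pieceRun kf ct (piece (P + (G - (m + 1)))) (sz 64 (N - 64 * (G - 1)) m) c) := rfl
    rw [e] at h
    have h6 : pieceRun kf ct (piece (P + (G - (m + 1)))) (sz 64 (N - 64 * (G - 1)) m) c ≠ 0 := by
      intro h7
      apply h
      rw [h7]
      rfl
    by_cases h4 : G - m ≤ g
    · obtain ⟨r, hr⟩ := Nat.exists_eq_succ_of_ne_zero h6
      refine ih (c := sc c r) (by omega) ?_ g h4 h2 j hj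
      intro h8
      apply h
      rw [hr]
      exact h8
    · have h5 : g = G - (m + 1) := by omega
      have h7 : G - 1 - g = m := by omega
      rw [h7] at hj
      rw [h5]
      exact pieceRun_ne h6 j hj

/-- **the loop** -/
theorem rowRun_ne {kf : ℕ → Bool} {ct : ℕ → ℕ → ℕ} {piece : ℕ → ℕ} {P N c : ℕ}
    (h : rowRun kf ct piece P N c ≠ 0) : ∀ k < N,
      Good kf ct (lw (exp8 (grpW (piece (P + k / 64)) (k % 64 / 8))) (k % 8)) := by
  intro k hk
  obtain ⟨h1, h2⟩ := block_ix (s := 64) (n := N) (G := (N + 63) / 64) (by norm_num) rfl hk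
  have h3 := pieces_ne (m := (N + 63) / 64) (G := (N + 63) / 64) le_rfl h (k / 64) (by omega) h1
    (k % 64) h2
  rwa [show k % 64 % 8 = k % 8 by omega] at h3

end Pool.Agent.Helper81.TY
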